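import Pool.Agent.H24.OW.Rch

/-!
# [H12 OW CHL] MP_b39724_nt, theorem OW, module D (think 1838 (2)): the change lemma

Abstract frame `AD`. `K` a subgroup of `S` stable under conjugation in `SP S P`; `psi : S → R` additive on `K`.
* `rr_ch`: the change of `RR` under `x → mv u x`, `τ → τ z`, without the hypothesis `RR = 1`.
* `Kst`: the hypotheses: `Kp v` the subgroup of the changes at the place `v` (`K_i` at the place of the root `i`, `K` otherwise), `K ≤ Kp v`,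
  `psi` is invariant under conjugation by `Kp v`.
* `Kst.dj_add`: `psi (Dj τ x j ·)` is additive on `Kp (pj j)`. `Kst.rr`: the change of `RR`. `Kst.dj_inv`: `psi (Dj τ x j u)` does not change under
  `x → mv g x`, `τ → τ z`, `g j ∈ Kp (pj j)`, `z v ∈ Kp v`.
-/

set_option autoImplicit false

open scoped commutatorElement
open scoped Classical

noncomputable section

namespace H12.OW

open H1.S3 H73.S3 H24.OW

open H71.S3 (cjl cjl_il cjl_mem cjl_gk)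

variable {S P : Type} [Group S] [Group P] [MulDistribMulAction P S] {J V : Type}

section rch

variable {R : Type} [AddCommGroup R] {K : Subgroup S} {psi : S → R}

/-- THE CHANGE OF THE RELATION -/
theorem rr_ch (X : AD S P J V) (hK : ∀ (g : SP S P), ∀ u ∈ K, cjl g u ∈ K)
    (hadd : ∀ u ∈ K, ∀ v ∈ K, psi (u * v) = psi u + psi v) (hnd : X.l.Nodup)
    (hbn : ∀ v ∈ X.l, (X.bl v).Nodup) (hbp : ∀ v, ∀ j ∈ X.bl v, X.pj j = v)
    (hjl : ∀ j ∈ X.Jf, X.pj j ∈ X.l ∧ j ∈ X.bl (X.pj j)) (τ z : V → S) (x : J → SP S P) (u : X.Jf → S)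
    (hD : ∀ j : X.Jf, dl (X.t j) (x j) (u j) ∈ K)
    (hz : ∀ v ∈ X.l, zb (X.bk x v) (z v) ∈ K)
    (hzi : ∀ v ∈ X.l, ∀ g : SP S P, ∀ w ∈ K, psi (cjl (g * il (z v)) w) = psi (cjl g w)) :
    ∃ E ∈ K, X.RR (fun v => τ v * z v) (X.mv u x) = il E * X.RR τ x ∧ ∀ g : SP S P, psi (cjl g E) =
      ∑ j : X.Jf, psi (cjl g (Dj X τ x j (u j))) +
      (X.l.map fun v => psi (cjl (g * (pf X τ x v * il (τ v))) (zb (X.bk x v) (z v)))).sum := by
  have h0 : psi 1 = 0 := by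
    have h := hadd 1 (one_mem K) 1 (one_mem K)
    rw [mul_one] at h
    exact left_eq_add.1 h
  -- the changes of all letters
  obtain ⟨U, hU⟩ : ∃ U : J → S, ∀ j, U j = if h : j ∈ X.Jf then u ⟨j, h⟩ else 1 := ⟨_, fun _ => rfl⟩
  have hmv : ∀ j, X.mv u x j = il (U j) * x j := by
    intro j
    unfold AD.mv
    rw [hU j]
    split_ifs
    · rfl
    · rw [il_one, one_mul]
  have hUD : ∀ j, dl (X.t j) (x j) (U j) ∈ K := by
    intro j
    rw [hU j]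
    split_ifs with h
    · exact hD ⟨j, h⟩
    · rw [dl_one]
      exact one_mem K
  -- the blocks
  have hbk : ∀ v ∈ X.l, ∃ E ∈ K, X.bk (X.mv u x) v = il E * X.bk x v ∧ ∀ g : SP S P, psi (cjl g E) =
      ((X.bl v).map fun j => psi (cjl (g * wd X.t x (pre (X.bl v) j)) (dl (X.t j) (x j) (U j)))).sum := by
    intro v hv
    exact prod_ch hK hadd (fun j => ⁅X.t j, x j⁆) (fun j => ⁅X.t j, X.mv u x j⁆)
      (fun j => dl (X.t j) (x j) (U j)) (X.bl v) (hbn v hv) fun j _ => ⟨hUD j, by rw [hmv j, dl_il]⟩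
  obtain ⟨E, hE⟩ : ∃ E : V → S, ∀ v ∈ X.l, E v ∈ K ∧ X.bk (X.mv u x) v = il (E v) * X.bk x v ∧
      ∀ g : SP S P, psi (cjl g (E v)) =
      ((X.bl v).map fun j => psi (cjl (g * wd X.t x (pre (X.bl v) j)) (dl (X.t j) (x j) (U j)))).sum := by
    refine ⟨fun v => if h : v ∈ X.l then (hbk v h).choose else 1, fun v hv => ?_⟩
    have h := (hbk v hv).choose_spec
    beta_reduce
    rw [dif_pos hv]
    exact ⟨h.1, h.2⟩
  obtain ⟨F, hF, hF1, hF2⟩ := prod_ch hK hadd (fun v => cj (τ v) (X.bk x v))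
    (fun v => cj (τ v * z v) (X.bk (X.mv u x) v))
    (fun v => cjl (il (τ v * z v) : SP S P) (E v) * cjl (il (τ v) : SP S P) (zb (X.bk x v) (z v))) X.l hnd
    (fun v hv => by
      obtain ⟨e1, e2, -⟩ := hE v hv
      refine ⟨mul_mem (hK _ _ e1) (hK _ _ (hz v hv)), ?_⟩
      rw [e2, il_mul (P := P) (cjl _ _), ← cjl_il, ← cjl_il]
      have e3 := zb_il (X.bk x v) (z v)
      have e4 : (il (zb (X.bk x v) (z v)) : SP S P) = cj (z v) (X.bk x v) * (X.bk x v)⁻¹ := by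
        rw [e3, mul_inv_cancel_right]
      rw [e4]
      unfold cj
      rw [il_mul (τ v) (z v)]
      group)
  refine ⟨F, hF, hF1, fun g => ?_⟩
  have h6 : ∑ j : X.Jf, psi (cjl g (Dj X τ x j (u j))) = ∑ j : X.Jf, psi (cjl g (Dj X τ x j (U j))) := by
    refine Finset.sum_congr rfl fun j _ => ?_
    rw [hU j, dif_pos j.2]
  have h7 := sum_bl X hnd hbn hbp hjl (fun j => psi (cjl g (Dj X τ x j (U j)))) fun j hj => by
    unfold Dj
    rw [hU j, dif_neg hj, dl_one, cjl_one, cjl_one, h0]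
  rw [h6, ← h7, ← List.sum_map_add, hF2]
  congr 1
  refine List.map_congr_left fun v hv => ?_
  obtain ⟨e1, -, e3⟩ := hE v hv
  rw [cjl_mul, hadd _ (hK _ _ (hK _ _ e1)) _ (hK _ _ (hK _ _ (hz v hv))), cjl_cjl, cjl_cjl]
  have e5 : g * ((pre X.l v).map fun w => cj (τ w) (X.bk x w)).prod * (il (τ v) : SP S P) = g * (pf X τ x v * il (τ v)) := by
    unfold pf
    group
  rw [e5]
  congr 1
  have e4 : g * ((pre X.l v).map fun w => cj (τ w) (X.bk x w)).prod * (il (τ v * z v) : SP S P) =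
      g * (pf X τ x v * il (τ v)) * il (z v) := by
    rw [il_mul]
    unfold pf
    group
  rw [e4, hzi v hv _ _ e1, e3]
  congr 1
  refine List.map_congr_left fun j hj => ?_
  unfold Dj cn
  rw [hbp v j hj, cjl_cjl]
  congr 2
  group

end rch

section kst

variable {R : Type} [AddCommGroup R]

/-- the hypotheses on the subgroups -/
structure Kst (X : AD S P J V) (K : Subgroup S) (Kp : V → Subgroup S) (psi : S → R) : Prop where
  nd : X.l.Nodup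
  bn : ∀ v ∈ X.l, (X.bl v).Nodup
  bp : ∀ v, ∀ j ∈ X.bl v, X.pj j = v
  jl : ∀ j ∈ X.Jf, X.pj j ∈ X.l ∧ j ∈ X.bl (X.pj j)
  st : ∀ g : SP S P, ∀ u ∈ K, cjl g u ∈ K
  stp : ∀ v, ∀ g : SP S P, ∀ u ∈ Kp v, cjl g u ∈ Kp v
  le : ∀ v, K ≤ Kp v
  D : ∀ j ∈ X.Jf, ∀ x, ∀ u ∈ Kp (X.pj j), dl (X.t j) x u ∈ K
  zb : ∀ v ∈ X.l, ∀ x, ∀ z ∈ Kp v, zb (X.bk x v) z ∈ K
  add : ∀ u ∈ K, ∀ v ∈ K, psi (u * v) = psi u + psi v
  inv : ∀ v, ∀ a ∈ Kp v, ∀ b ∈ K, psi (a * b * a⁻¹) = psi b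

variable {X : AD S P J V} {K : Subgroup S} {Kp : V → Subgroup S} {psi : S → R}

theorem Kst.one (h : Kst X K Kp psi) : psi 1 = 0 := by
  have h1 := h.add 1 (one_mem K) 1 (one_mem K)
  rw [mul_one] at h1
  exact left_eq_add.1 h1

theorem Kst.inv_l (h : Kst X K Kp psi) {v : V} {a : S} (ha : a ∈ Kp v) (g : SP S P) {b : S} (hb : b ∈ K) :
    psi (cjl (il a * g) b) = psi (cjl g b) := by
  rw [← cjl_cjl, il_cjl, h.inv v a ha _ (h.st g b hb)]

theorem Kst.inv_r (h : Kst X K Kp psi) {v : V} {a : S} (ha : a ∈ Kp v) (g : SP S P) {b : S} (hb : b ∈ K) :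
    psi (cjl (g * il a) b) = psi (cjl g b) := by
  have h1 : g * il a = il (cjl g a) * g := by
    rw [← cjl_il]
    group
  rw [h1, h.inv_l (h.stp v g a ha) g hb]

theorem dl_mul (t x : SP S P) (u v : S) : dl t x (u * v) = cjl (il (cjl t u) : SP S P) (dl t x v) * dl t x u := by
  unfold dl
  rw [cjl_mul, mul_inv_rev, cjl_mul, il_cjl]
  group

theorem Kst.dj_mem (h : Kst X K Kp psi) (τ : V → S) (x : J → SP S P) {j : J} (hj : j ∈ X.Jf) {u : S} (hu : u ∈ Kp (X.pj j)) :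
    Dj X τ x j u ∈ K := h.st _ _ (h.D j hj _ u hu)

theorem Kst.dj_add (h : Kst X K Kp psi) (τ : V → S) (x : J → SP S P) {j : J} (hj : j ∈ X.Jf) {u v : S}
    (hu : u ∈ Kp (X.pj j)) (hv : v ∈ Kp (X.pj j)) :
    psi (Dj X τ x j (u * v)) = psi (Dj X τ x j u) + psi (Dj X τ x j v) := by
  unfold Dj
  rw [dl_mul, cjl_mul, cjl_cjl, h.add _ (h.st _ _ (h.D j hj _ v hv)) _ (h.st _ _ (h.D j hj _ u hu)),
    h.inv_r (h.stp _ (X.t j) u hu) _ (h.D j hj _ v hv), add_comm]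

/-- the change of the relation -/
theorem Kst.rr (h : Kst X K Kp psi) (τ : V → S) {z : V → S} (hz : ∀ v ∈ X.l, z v ∈ Kp v) (x : J → SP S P) {u : X.Jf → S}
    (hu : ∀ j : X.Jf, u j ∈ Kp (X.pj j)) :
    ∃ E ∈ K, X.RR (fun v => τ v * z v) (X.mv u x) = il E * X.RR τ x ∧ psi E =
      ∑ j : X.Jf, psi (Dj X τ x j (u j)) +
      (X.l.map fun v => psi (cjl (pf X τ x v * il (τ v)) (H24.OW.zb (X.bk x v) (z v)))).sum := by
  obtain ⟨E, hE, h1, h2⟩ := H12.OW.rr_ch X h.st h.add h.nd h.bn h.bp h.jl τ z x u (fun j => h.D j j.2 _ _ (hu j))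
    (fun v hv => h.zb v hv x _ (hz v hv)) fun v hv g w hw => h.inv_r (hz v hv) g hw
  refine ⟨E, hE, h1, ?_⟩
  have h3 := h2 1
  simp only [one_mul, one_cjl] at h3
  exact h3

/-- a change by `K` of a product -/
theorem prod_mem {I : Type} {K : Subgroup S} (hK : ∀ (g : SP S P), ∀ u ∈ K, cjl g u ∈ K) (b b' : I → SP S P) (l : List I)
    (he : ∀ i ∈ l, ∃ e ∈ K, b' i = il e * b i) : ∃ E ∈ K, (l.map b').prod = il E * (l.map b).prod := by
  induction l with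
  | nil => exact ⟨1, one_mem K, by rw [il_one, one_mul]; rfl⟩
  | cons i l ih =>
    obtain ⟨E, hE, h1⟩ := ih fun j hj => he j (List.mem_cons_of_mem _ hj)
    obtain ⟨e, he, h2⟩ := he i List.mem_cons_self
    refine ⟨e * cjl (b i) E, mul_mem he (hK _ _ hE), ?_⟩
    rw [List.map_cons, List.map_cons, List.prod_cons, List.prod_cons, h1, h2, il_mul, ← cjl_il]
    group

theorem Kst.mv_ex (h : Kst X K Kp psi) (x : J → SP S P) {g : X.Jf → S} (hg : ∀ j : X.Jf, g j ∈ Kp (X.pj j)) (j : J) :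
    ∃ a, X.mv g x j = il a * x j ∧ (j ∈ X.Jf → a ∈ Kp (X.pj j)) ∧ ∃ e ∈ K, ⁅X.t j, X.mv g x j⁆ = il e * ⁅X.t j, x j⁆ := by
  unfold AD.mv
  by_cases hj : j ∈ X.Jf
  · rw [dif_pos hj]
    exact ⟨g ⟨j, hj⟩, rfl, fun _ => hg ⟨j, hj⟩, _, h.D j hj (x j) _ (hg ⟨j, hj⟩), dl_il _ _ _⟩
  · rw [dif_neg hj]
    exact ⟨1, by rw [il_one, one_mul], fun h => absurd h hj, 1, one_mem K, by rw [il_one, one_mul]⟩

/-- the blocks -/
theorem Kst.wd_ex (h : Kst X K Kp psi) (x : J → SP S P) {g : X.Jf → S} (hg : ∀ j : X.Jf, g j ∈ Kp (X.pj j)) (l : List J) :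
    ∃ e ∈ K, wd X.t (X.mv g x) l = il e * wd X.t x l :=
  prod_mem h.st _ _ l fun j _ => (h.mv_ex x hg j).choose_spec.2.2

theorem Kst.pf_ex (h : Kst X K Kp psi) (τ : V → S) {z : V → S} (hz : ∀ v ∈ X.l, z v ∈ Kp v) (x : J → SP S P) {g : X.Jf → S}
    (hg : ∀ j : X.Jf, g j ∈ Kp (X.pj j)) (v : V) :
    ∃ e ∈ K, pf X (fun v => τ v * z v) (X.mv g x) v = il e * pf X τ x v := by
  refine prod_mem h.st _ _ _ fun w hw => ?_
  have hw' : w ∈ X.l := List.takeWhile_subset _ hw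
  obtain ⟨e, he, h1⟩ := h.wd_ex x hg (X.bl w)
  have h1' : X.bk (X.mv g x) w = il e * X.bk x w := h1
  refine ⟨cjl (il (τ w * z w) : SP S P) e * cjl (il (τ w) : SP S P) (H24.OW.zb (X.bk x w) (z w)),
    mul_mem (h.st _ _ he) (h.st _ _ (h.zb w hw' x _ (hz w hw'))), ?_⟩
  have e3 := zb_il (X.bk x w) (z w)
  have e4 : (il (H24.OW.zb (X.bk x w) (z w)) : SP S P) = cj (z w) (X.bk x w) * (X.bk x w)⁻¹ := by
    rw [e3, mul_inv_cancel_right]
  rw [h1', il_mul (P := P) (cjl _ _), ← cjl_il, ← cjl_il, e4]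
  unfold cj
  rw [il_mul (τ w) (z w)]
  group

/-- `psi (Dj)` does not change -/
theorem Kst.dj_inv (h : Kst X K Kp psi) (τ : V → S) {z : V → S} (hz : ∀ v ∈ X.l, z v ∈ Kp v) (x : J → SP S P) {g : X.Jf → S}
    (hg : ∀ j : X.Jf, g j ∈ Kp (X.pj j)) {j : J} (hj : j ∈ X.Jf) {u : S} (hu : u ∈ Kp (X.pj j)) :
    psi (Dj X (fun v => τ v * z v) (X.mv g x) j u) = psi (Dj X τ x j u) := by
  obtain ⟨a, ha, haK, e, he, h1⟩ := h.mv_ex x hg j
  obtain ⟨e₁, he₁, h2⟩ := h.pf_ex τ hz x hg (X.pj j)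
  obtain ⟨e₂, he₂, h3⟩ := h.wd_ex x hg (pre (X.bl (X.pj j)) j)
  have hA : cjl (X.t j) u ∈ Kp (X.pj j) := h.stp _ _ u hu
  have hd := h.D j hj (x j) u hu
  -- the inner change
  have h4 : dl (X.t j) (X.mv g x j) u = cjl (il (cjl (X.t j) u) : SP S P) e * dl (X.t j) (x j) u * e⁻¹ := by
    unfold dl
    rw [h1, ← cjl_cjl, il_cjl, il_cjl]
    group
  have h5 : ∀ c : SP S P, psi (cjl c (dl (X.t j) (X.mv g x j) u)) = psi (cjl c (dl (X.t j) (x j) u)) := by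
    intro c
    have e1 : cjl (il (cjl (X.t j) u) : SP S P) e ∈ K := h.st _ _ he
    have h6 := h.add _ (h.st c _ he) _ (h.st c _ (inv_mem he))
    rw [← cjl_mul, mul_inv_cancel, cjl_one, h.one] at h6
    rw [h4, cjl_mul, cjl_mul, h.add _ (mul_mem (h.st _ _ e1) (h.st _ _ hd)) _ (h.st _ _ (inv_mem he)),
      h.add _ (h.st _ _ e1) _ (h.st _ _ hd), cjl_cjl, h.inv_r hA c he, eq_neg_of_add_eq_zero_right h6.symm]
    abel
  -- the prefix
  have hv := (h.jl j hj).1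
  have h7 : cn X (fun v => τ v * z v) (X.mv g x) j =
      il (e₁ * cjl (pf X τ x (X.pj j) * il (τ (X.pj j))) (z (X.pj j) * e₂)) * cn X τ x j := by
    unfold cn
    rw [h2, h3, il_mul e₁, ← cjl_il, il_mul (τ _), il_mul (z _)]
    group
  unfold Dj
  rw [h5, h7, h.inv_l (mul_mem (h.le _ he₁) (h.stp _ _ _ (mul_mem (hz _ hv) (h.le _ he₂)))) _ hd]

end kst

end H12.OW
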