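import Pool.Agent.H12.OW.Kil
import Pool.Agent.H12.OW.Chl
import Pool.Agent.H24.OW.Ka

/-!
# [H12 OW ETA] MP_b39724_nt, theorem OW, S4 (b3): the one layer family of the own letter group

`O : OwL P P' A Be I` (H12/OW/Kil), `St = Sp Pa Be`.
* `O.exf Pa T n f : Du St q n`: the functional which is `f` on `Kk T ∩ gam_n` and is `0` on the other multidegrees (`exf_pj`). `exf_spec`, `exf_congr`, `exf_zero`.
* `Tv rv v`: `univ`, or `{i}ᶜ` at the place `v` of the root `i` (`rv v = some i`). `O.eta`: the family `(exf (ka j), 0)` at the letters `pp`, `(0, exf (ka j))` otherwise.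
* `kst_own`: the hypotheses `Kst` of H12/OW/Chl for `K = Kk univ`, `Kp v = Kk (Tv rv v)`. `ka_inv`, `eta_inv`: the family does not change under `x → mv g x`, `τ → τ z`.
* `eta_ff`, `eta_pr`: the family satisfies `Ff` and is invariant under the projection `pj univ` at the letters which are not `pp`. `kx_pr`: so is the crossed homomorphism.
-/

set_option autoImplicit false

open scoped commutatorElement
open scoped Classical

noncomputable section

namespace H12.OW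

open H1.S3 H73.S3 H73.OW H82.S3 H24.OW

open H71.S3 (cjl cjl_il cjl_mem cjl_gk)

section exf

variable (Pa : Par) {P P' A Be I : Type} [Group P] [Group P'] [MulAction P A] [MulAction P' Be] (O : OwL P P' A Be I)
  {q : ℕ}

/-- extension by `0` of a functional on `Kk T ∩ gam_n` -/
def OwL.exf (T : Finset I) (n : ℕ) (f : Sp Pa Be → ZMod q) : Du (Sp Pa Be) q n :=
  if h : ∃ F : Gr (Sp Pa Be) n →+ ZMod q, (∀ z, F z = F (O.pj Pa T n z)) ∧
    ∀ u ∈ O.Kk Pa T, u ∈ gm (Sp Pa Be) n → F (gk n u) = f u then (h.choose : Gr (Sp Pa Be) n →+ ZMod q) else 0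

theorem OwL.exf_pj (T : Finset I) (n : ℕ) (f : Sp Pa Be → ZMod q) (z : Gr (Sp Pa Be) n) :
    (O.exf Pa T n f).ap (O.pj Pa T n z) = (O.exf Pa T n f).ap z := by
  unfold OwL.exf
  split_ifs with h
  · exact (h.choose_spec.1 z).symm
  · rfl

theorem OwL.exf_spec {T : Finset I} {n : ℕ} {f : Sp Pa Be → ZMod q}
    (hf : ∀ u ∈ O.Kk Pa T, u ∈ gm (Sp Pa Be) n → ∀ v ∈ O.Kk Pa T, v ∈ gm (Sp Pa Be) n → f (u * v) = f u + f v)
    (h0 : ∀ u ∈ O.Kk Pa T, u ∈ gm (Sp Pa Be) (n + 1) → f u = 0) {u : Sp Pa Be} (hu : u ∈ O.Kk Pa T)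
    (hn : u ∈ gm (Sp Pa Be) n) : (O.exf Pa T n f).ap (gk n u) = f u := by
  have h := O.ext_kk Pa T n f hf h0
  unfold OwL.exf
  rw [dif_pos h]
  exact h.choose_spec.2 u hu hn

theorem OwL.exf_congr {T : Finset I} {n : ℕ} {f g : Sp Pa Be → ZMod q}
    (h : ∀ u ∈ O.Kk Pa T, u ∈ gm (Sp Pa Be) n → f u = g u) : O.exf Pa T n f = O.exf Pa T n g := by
  have h1 : (fun F : Gr (Sp Pa Be) n →+ ZMod q => (∀ z, F z = F (O.pj Pa T n z)) ∧
      ∀ u ∈ O.Kk Pa T, u ∈ gm (Sp Pa Be) n → F (gk n u) = f u) = fun F => (∀ z, F z = F (O.pj Pa T n z)) ∧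
      ∀ u ∈ O.Kk Pa T, u ∈ gm (Sp Pa Be) n → F (gk n u) = g u := by
    funext F
    refine propext (and_congr_right fun _ => ?_)
    exact forall_congr' fun u => forall_congr' fun hu => forall_congr' fun hn => by rw [h u hu hn]
  have key : ∀ p p' : (Gr (Sp Pa Be) n →+ ZMod q) → Prop, p = p' →
      (if h : ∃ F, p F then (h.choose : Gr (Sp Pa Be) n →+ ZMod q) else 0) = if h : ∃ F, p' F then (h.choose : Gr (Sp Pa Be) n →+ ZMod q) else 0 := by
    rintro p _ rfl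
    rfl
  exact key _ _ h1

/-- a functional which is determined by its values on `Kk T` -/
theorem OwL.exf_uniq {T : Finset I} {n : ℕ} {χ : Du (Sp Pa Be) q n} (h : ∀ z, χ.ap (O.pj Pa T n z) = χ.ap z) {f : Sp Pa Be → ZMod q}
    (hf : ∀ u ∈ O.Kk Pa T, u ∈ gm (Sp Pa Be) n → χ.ap (gk n u) = f u) : χ = O.exf Pa T n f := by
  have hex : ∃ F : Gr (Sp Pa Be) n →+ ZMod q, (∀ z, F z = F (O.pj Pa T n z)) ∧
    ∀ u ∈ O.Kk Pa T, u ∈ gm (Sp Pa Be) n → F (gk n u) = f u := ⟨χ.ap, fun z => (h z).symm, hf⟩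
  refine du_ext fun z => ?_
  unfold OwL.exf
  rw [dif_pos hex]
  obtain ⟨u, hu, rfl⟩ := gk_surj n z
  obtain ⟨u', hu', hn', e⟩ := O.pj_ex Pa T n hu
  rw [← h, ← e, hf u' hu' hn']
  refine Eq.symm ((hex.choose_spec.1 _).trans ?_)
  rw [← e]
  exact hex.choose_spec.2 u' hu' hn'

theorem OwL.pj_zero {T : Finset I} {n : ℕ} (h : n < T.card) (z : Gr (Sp Pa Be) n) : O.pj Pa T n z = 0 := by
  obtain ⟨u, hu, rfl⟩ := gk_surj n z
  obtain ⟨u', hu', hn', e⟩ := O.pj_ex Pa T n hu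
  rw [← e, gk_zero hn']
  exact H73.OW.gm_le (by omega) (O.kk_le Pa T hu')

theorem OwL.exf_zero {T : Finset I} {n : ℕ} (h : n < T.card) (f : Sp Pa Be → ZMod q) : O.exf Pa T n f = 0 := by
  refine du_ext fun z => ?_
  rw [← O.exf_pj, O.pj_zero Pa h, map_zero]
  rfl

/-- equivariance of the projection for functionals -/
theorem OwL.smul_pj {T : Finset I} {n : ℕ} {χ : Du (Sp Pa Be) q n} (h : ∀ z, χ.ap (O.pj Pa T n z) = χ.ap z) (g : P')
    (z : Gr (Sp Pa Be) n) : (g • χ).ap (O.pj Pa T n z) = (g • χ).ap z := by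
  rw [ap_smul, ap_smul, ← O.pj_smul, h]

end exf

section own

variable (Pa : Par) {P P' A Be I : Type} [Group P] [Group P'] [MulAction P A] [MulAction P' Be] (O : OwL P P' A Be I)
  {J V : Type} {q d : ℕ} [Fintype I]

/-- the own indices which are killed at the place `v` -/
def Tv (rv : V → Option I) (v : V) : Finset I := (rv v).elim Finset.univ fun i => {i}ᶜ

theorem tv_none {rv : V → Option I} {v : V} (h : rv v = none) : Tv rv v = Finset.univ := by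
  unfold Tv
  rw [h]
  rfl

theorem tv_some {rv : V → Option I} {v : V} {i : I} (h : rv v = some i) : Tv rv v = {i}ᶜ := by
  unfold Tv
  rw [h]
  rfl

/-- the family -/
def OwL.eta (Y : AD (Sp Pa Be) P' J V) (rv : V → Option I) (ka : J → Sp Pa Be → ZMod q) (j : J) :
    Du (Sp Pa Be) q d × Du (Sp Pa Be) q (d + 1) :=
  if Y.pp j then (O.exf Pa (Tv rv (Y.pj j)) d (ka j), 0) else (0, O.exf Pa (Tv rv (Y.pj j)) (d + 1) (ka j))

variable {Pa O}

theorem OwL.eta_ff (Y : AD (Sp Pa Be) P' J V) (rv : V → Option I) (ka : J → Sp Pa Be → ZMod q) :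
    Y.Ff fun j => (O.eta Pa Y rv ka j : Du (Sp Pa Be) q d × Du (Sp Pa Be) q (d + 1)) := by
  intro j
  by_cases hj : Y.pp j
  · rw [if_pos hj]
    show (O.eta Pa Y rv ka j : Du (Sp Pa Be) q d × Du (Sp Pa Be) q (d + 1)).2 = 0
    unfold OwL.eta
    rw [if_pos hj]
  · rw [if_neg hj]
    show (O.eta Pa Y rv ka j : Du (Sp Pa Be) q d × Du (Sp Pa Be) q (d + 1)).1 = 0
    unfold OwL.eta
    rw [if_neg hj]

theorem OwL.eta_congr (Y : AD (Sp Pa Be) P' J V) (rv : V → Option I) {ka ka' : J → Sp Pa Be → ZMod q} {j : J}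
    (h : ∀ u ∈ O.Kk Pa (Tv rv (Y.pj j)), ka j u = ka' j u) :
    (O.eta Pa Y rv ka j : Du (Sp Pa Be) q d × Du (Sp Pa Be) q (d + 1)) = O.eta Pa Y rv ka' j := by
  unfold OwL.eta
  rw [O.exf_congr Pa (T := Tv rv (Y.pj j)) (n := d) fun u hu _ => h u hu,
    O.exf_congr Pa (T := Tv rv (Y.pj j)) (n := d + 1) fun u hu _ => h u hu]

/-- the letters of the roots are own letters -/
structure Own (O : OwL P P' A Be I) (Y : AD (Sp Pa Be) P' J V) (rv : V → Option I) : Prop where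
  nd : Y.l.Nodup
  bn : ∀ v ∈ Y.l, (Y.bl v).Nodup
  bp : ∀ v, ∀ j ∈ Y.bl v, Y.pj j = v
  jl : ∀ j ∈ Y.Jf, Y.pj j ∈ Y.l ∧ j ∈ Y.bl (Y.pj j)
  rt : ∀ v ∈ Y.l, ∀ i, rv v = some i → ∃ j ∈ Y.Jf, Y.pp j ∧ Y.bl v = [j] ∧ ∃ y ∈ O.Kk Pa {i}, Y.t j = il y

omit [Fintype I] in
theorem kk_cjl {T : Finset I} (g : SP (Sp Pa Be) P') {u : Sp Pa Be} (hu : u ∈ O.Kk Pa T) : cjl g u ∈ O.Kk Pa T := by
  unfold H71.S3.cjl
  exact (O.kk_normal Pa T).conj_mem _ (O.kk_smul Pa _ hu) _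

/-- commutator with an own letter -/
theorem kk_dl {i : I} {y u : Sp Pa Be} (hy : y ∈ O.Kk Pa {i}) (hu : u ∈ O.Kk Pa {i}ᶜ) (x : SP (Sp Pa Be) P') :
    dl (il y) x u ∈ O.Kk Pa Finset.univ := by
  have h0 : ({i} : Finset I) ∪ {i}ᶜ = Finset.univ := Finset.union_compl _
  rw [← h0]
  refine O.kk_inter Pa ?_ ?_
  · -- killing `i`
    have e1 : ⁅(il y : SP (Sp Pa Be) P'), x⁆ = il (y * (cjl x y)⁻¹) := by
      rw [commutatorElement_def, il_mul, il_inv, ← cjl_il]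
      group
    unfold dl
    rw [e1, il_cjl, il_cjl]
    have h1 : y * (cjl x y)⁻¹ ∈ O.Kk Pa {i} := mul_mem hy (inv_mem (kk_cjl x hy))
    have h2 : y * u * y⁻¹ * (y * (cjl x y)⁻¹ * u⁻¹ * (y * (cjl x y)⁻¹)⁻¹) =
        ⁅y, u⁆ * ⁅u, y * (cjl x y)⁻¹⁆ := by
      rw [commutatorElement_def, commutatorElement_def]
      group
    rw [h2]
    have key : ∀ w ∈ O.Kk Pa {i}, ∀ v, ⁅w, v⁆ ∈ O.Kk Pa {i} ∧ ⁅v, w⁆ ∈ O.Kk Pa {i} := by
      intro w hw v
      constructor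
      · have e : ⁅w, v⁆ = w * (v * w⁻¹ * v⁻¹) := by
          rw [commutatorElement_def]
          group
        rw [e]
        exact mul_mem hw ((O.kk_normal Pa _).conj_mem _ (inv_mem hw) v)
      · rw [commutatorElement_def]
        exact mul_mem ((O.kk_normal Pa _).conj_mem _ hw v) (inv_mem hw)
    exact mul_mem (key y hy u).1 (key _ h1 u).2
  · exact mul_mem (kk_cjl _ hu) (kk_cjl _ (inv_mem hu))

theorem kk_zb {i : I} {y z : Sp Pa Be} (hy : y ∈ O.Kk Pa {i}) (hz : z ∈ O.Kk Pa {i}ᶜ) (x : SP (Sp Pa Be) P') :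
    zb ⁅(il y : SP (Sp Pa Be) P'), x⁆ z ∈ O.Kk Pa Finset.univ := by
  have e1 : ⁅(il y : SP (Sp Pa Be) P'), x⁆ = il (y * (cjl x y)⁻¹) := by
    rw [commutatorElement_def, il_mul, il_inv, ← cjl_il]
    group
  have h1 : y * (cjl x y)⁻¹ ∈ O.Kk Pa {i} := mul_mem hy (inv_mem (kk_cjl x hy))
  unfold zb
  rw [e1, il_cjl]
  have h2 : z * (y * (cjl x y)⁻¹ * z⁻¹ * (y * (cjl x y)⁻¹)⁻¹) = ⁅z, y * (cjl x y)⁻¹⁆ := by
    rw [commutatorElement_def]
    group
  have h3 := O.kk_comm Pa hz h1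
  rw [Finset.union_comm, Finset.union_compl] at h3
  rw [h2]
  exact h3

/-- the hypotheses of the change lemma -/
theorem kst_own {Y : AD (Sp Pa Be) P' J V} {rv : V → Option I} (h : Own O Y rv) {psi : Sp Pa Be → ZMod q}
    (hp : PK P' (O.Kk Pa Finset.univ) psi (d + 1)) (hd : 2 ≤ d) (hI : Fintype.card I = d + 1) :
    Kst Y (O.Kk Pa Finset.univ) (fun v => O.Kk Pa (Tv rv v)) psi where
  nd := h.nd
  bn := h.bn
  bp := h.bp
  jl := h.jl
  st g u hu := kk_cjl g hu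
  stp v g u hu := kk_cjl g hu
  le v := O.kk_mono Pa (Finset.subset_univ _)
  D j hj x u hu := by
    rcases hv : rv (Y.pj j) with _ | i
    · rw [tv_none hv] at hu
      exact mul_mem (kk_cjl _ hu) (kk_cjl _ (inv_mem hu))
    · rw [tv_some hv] at hu
      obtain ⟨j', hj', hp', hb, y, hy, ht⟩ := h.rt _ (h.jl j hj).1 i hv
      have e := (h.jl j hj).2
      rw [hb, List.mem_singleton] at e
      rw [e, ht]
      exact kk_dl hy hu x
  zb v hv x z hz := by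
    rcases hr : rv v with _ | i
    · rw [tv_none hr] at hz
      exact mul_mem hz (kk_cjl _ (inv_mem hz))
    · rw [tv_some hr] at hz
      obtain ⟨j', hj', hp', hb, y, hy, ht⟩ := h.rt v hv i hr
      have e : Y.bk x v = ⁅(il y : SP (Sp Pa Be) P'), x j'⁆ := by
        unfold AD.bk wd
        rw [hb, List.map_singleton, List.prod_singleton, ht]
      rw [e]
      exact kk_zb hy hz _
  add := hp.add
  inv v a ha b hb := by
    have h1 : a * b * a⁻¹ = ⁅a, b⁆ * b := by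
      rw [commutatorElement_def]
      group
    have h2 : a ∈ gm (Sp Pa Be) d := by
      refine H73.OW.gm_le ?_ (O.kk_le Pa _ ha)
      rcases hr : rv v with _ | i
      · rw [tv_none hr, Finset.card_univ]
        omega
      · rw [tv_some hr, Finset.card_compl, Finset.card_singleton]
        omega
    have h3 : ⁅a, b⁆ ∈ gm (Sp Pa Be) (d + 1 + 2) :=
      H73.OW.gm_le (by omega) (gm_comm2 (i := d) (j := d + 1) (by omega) (by omega) h2 (hp.le hb))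
    rw [h1, hp.add _ (hp.com a hb) _ hb, hp.bot _ (hp.com a hb) h3, zero_add]

theorem ka_inv {S : Type} [Group S] {ev : Sp Pa Be →* S} {Y : AD (Sp Pa Be) P' J V} {rv : V → Option I} (h : Own O Y rv)
    {psi : Sp Pa Be → ZMod q} (hp : PK P' (O.Kk Pa Finset.univ) psi (d + 1)) (hd : 2 ≤ d) (hI : Fintype.card I = d + 1)
    (ze : J → Dz S q d × Dz S q (d + 1)) (τ : V → Sp Pa Be) {z : V → Sp Pa Be} (hz : ∀ v ∈ Y.l, z v ∈ O.Kk Pa (Tv rv v))
    (x : J → SP (Sp Pa Be) P') {g : Y.Jf → Sp Pa Be} (hg : ∀ j : Y.Jf, g j ∈ O.Kk Pa (Tv rv (Y.pj j))) {j : J} (hj : j ∈ Y.Jf)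
    {u : Sp Pa Be} (hu : u ∈ O.Kk Pa (Tv rv (Y.pj j))) :
    ka ev psi Y (fun v => τ v * z v) (Y.mv g x) ze j u = ka ev psi Y τ x ze j u := by
  unfold ka
  rw [(kst_own h hp hd hI).dj_inv τ hz x hg hj hu]

/-- the family does not change -/
theorem eta_inv {S : Type} [Group S] {ev : Sp Pa Be →* S} {Y : AD (Sp Pa Be) P' J V} {rv : V → Option I} (h : Own O Y rv)
    {psi : Sp Pa Be → ZMod q} (hp : PK P' (O.Kk Pa Finset.univ) psi (d + 1)) (hd : 2 ≤ d) (hI : Fintype.card I = d + 1)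
    (ze : J → Dz S q d × Dz S q (d + 1)) (τ : V → Sp Pa Be) {z : V → Sp Pa Be} (hz : ∀ v ∈ Y.l, z v ∈ O.Kk Pa (Tv rv v))
    (x : J → SP (Sp Pa Be) P') {g : Y.Jf → Sp Pa Be} (hg : ∀ j : Y.Jf, g j ∈ O.Kk Pa (Tv rv (Y.pj j))) {j : J} (hj : j ∈ Y.Jf) :
    (O.eta Pa Y rv (ka ev psi Y (fun v => τ v * z v) (Y.mv g x) ze) j : Du (Sp Pa Be) q d × Du (Sp Pa Be) q (d + 1)) =
      O.eta Pa Y rv (ka ev psi Y τ x ze) j :=
  OwL.eta_congr Y rv fun u hu => ka_inv h hp hd hI ze τ hz x hg hj hu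

/-- the projection of the family -/
theorem OwL.eta_pr (Y : AD (Sp Pa Be) P' J V) (rv : V → Option I) (ka : J → Sp Pa Be → ZMod q) {j : J}
    (hj : rv (Y.pj j) = none) (z : Gr (Sp Pa Be) (d + 1)) :
    (O.eta Pa Y rv ka j : Du (Sp Pa Be) q d × Du (Sp Pa Be) q (d + 1)).2.ap (O.pj Pa Finset.univ (d + 1) z) =
      (O.eta Pa Y rv ka j : Du (Sp Pa Be) q d × Du (Sp Pa Be) q (d + 1)).2.ap z := by
  unfold OwL.eta
  rw [tv_none hj]
  split_ifs
  · rfl
  · exact O.exf_pj Pa _ _ _ _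

/-- the projection of the crossed homomorphism -/
theorem kx_pr {Y : AD (Sp Pa Be) P' J V} {η : Y.Jf → Du (Sp Pa Be) q d × Du (Sp Pa Be) q (d + 1)}
    (hη : ∀ j : Y.Jf, ¬Y.pp j → ∀ z, (η j).2.ap (O.pj Pa Finset.univ (d + 1) z) = (η j).2.ap z)
    (hu : ∀ k k' : FreeGroup J → Du (Sp Pa Be) q (d + 1), Y.Kx η k → Y.Kx η k' → k = k')
    {k : FreeGroup J → Du (Sp Pa Be) q (d + 1)} (hk : Y.Kx η k) (w : FreeGroup J) (z : Gr (Sp Pa Be) (d + 1)) :
    (k w).ap (O.pj Pa Finset.univ (d + 1) z) = (k w).ap z := by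
  let pu : Du (Sp Pa Be) q (d + 1) → Du (Sp Pa Be) q (d + 1) := fun χ =>
    (χ.ap.comp (O.pj Pa Finset.univ (d + 1)) : Gr (Sp Pa Be) (d + 1) →+ ZMod q)
  have pu_ap : ∀ χ z, (pu χ).ap z = χ.ap (O.pj Pa Finset.univ (d + 1) z) := fun _ _ => rfl
  have pu_add : ∀ χ ξ, pu (χ + ξ) = pu χ + pu ξ := fun χ ξ => du_ext fun z => rfl
  have pu_sub : ∀ χ ξ, pu (χ - ξ) = pu χ - pu ξ := fun χ ξ => du_ext fun z => rfl
  have pu_smul : ∀ (g : P') χ, pu (g • χ) = g • pu χ := fun g χ => du_ext fun z => by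
    rw [pu_ap, ap_smul, ap_smul, pu_ap, ← O.pj_smul]
  have h1 : Y.Kx η fun w => pu (k w) := by
    refine ⟨fun a b => ?_, fun j hj => ?_, fun j hj => ?_⟩
    · rw [hk.ch a b, pu_add, pu_smul]
    · rw [hk.of j hj]
      exact du_ext fun z => rfl
    · refine Eq.trans ?_ (du_ext (hη j hj) : pu (η j).2 = (η j).2)
      rw [← hk.ze j hj]
      exact (pu_sub _ _).symm
  have h2 := congrFun (hu _ _ h1 hk) w
  rw [← pu_ap]
  exact congrArg (fun χ : Du (Sp Pa Be) q (d + 1) => χ.ap z) h2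

end own

end H12.OW
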