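import Pool.Agent.H12.OW.Eta
import Pool.Agent.H48.OW.Cfo
import Pool.Agent.H88.OW.Psi
import Pool.Agent.H62.OW.F2e

/-!
# [H12 OW CEL] MP_b39724_nt, theorem OW, S4 (b5''): the own letter frame and the cells

* `Pso O d R psi κ B`: the functional `psi` of a quasi Lie functional `B`, `κ` on the group with own letters (`d + 1` own indices). `pso_ex`: it exists. `Pso.ps`: the structure `Psi` of H62/OW/F2e.
* `own_g`, `own_rc`: `Own` (H12/OW/Eta) for the frame of a configuration with own letters.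
* `cel_iff`: `x = il g * x0` with `g` killed by the own indices `≠ rv v` iff all evaluations `KL {k}ᶜ` agree.
* `eta_cel`: the family at `x` and at `x0` is the same. `eta_val`: the family takes the values `ka` on the changes (abstract frame); `eta_adf`: the same for the frame of a configuration.
-/

set_option autoImplicit false

open scoped NumberField commutatorElement
open IsDedekindDomain
open scoped Classical

noncomputable section

namespace H12.OW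

open H1.S3 H73.S3 H73.OW H82.S3 H24.OW H88.OW

open H71.S3 (cjl cjl_il cjl_mem cjl_gk)

section pso

variable {Pa : Par} {P P' A Be I : Type} [Group P] [Group P'] [MulAction P A] [MulAction P' Be] [Fintype I]
  {q : ℕ}

/-- the functional `psi` of a quasi Lie functional -/
structure Pso (O : OwL P P' A Be I) (d : ℕ) (R : Subgroup P) (psi : Sp Pa Be → ZMod q) (κ : P → Du (Sp Pa A) q (d + 1 + 1))
    (B : ∀ i j : ℕ, Gr (Sp Pa A) i →+ Gr (Sp Pa A) j →+ ZMod q) : Prop where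
  pk : PK P' (O.Kk Pa Finset.univ) psi (d + 1)
  br : ∀ i j, 1 ≤ i → 1 ≤ j → i + j = d + 2 → ∀ T T' : Finset I, T ∪ T' = Finset.univ → ∀ u ∈ O.Kk Pa T, u ∈ gm (Sp Pa Be) i →
    ∀ v ∈ O.Kk Pa T', v ∈ gm (Sp Pa Be) j → psi ⁅u, v⁆ = -B i j (gk i (O.ev Pa u)) (gk j (O.ev Pa v))
  ka : ∀ g : P', O.f g ∈ R → ∀ u ∈ O.Kk Pa Finset.univ, u ∈ gm (Sp Pa Be) (d + 2) →
    psi (g⁻¹ • u) - psi u = (κ (O.f g)).ap (gk (d + 2) (O.ev Pa u))

variable {O : OwL P P' A Be I} {d : ℕ} {R : Subgroup P} {psi : Sp Pa Be → ZMod q} {κ : P → Du (Sp Pa A) q (d + 1 + 1)}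
  {B : ∀ i j : ℕ, Gr (Sp Pa A) i →+ Gr (Sp Pa A) j →+ ZMod q}

omit [Fintype I] in
theorem kk_empty (u : Sp Pa Be) : u ∈ O.Kk Pa ∅ := fun i hi => absurd hi (Finset.notMem_empty i)

/-- the structure of H62/OW/F2e -/
theorem Pso.ps (h : Pso O d R psi κ B) : H62.OW.Psi (d := d) (O.Kk Pa Finset.univ) (O.ev Pa) psi B P' where
  st := h.pk.st
  le := h.pk.le
  add := h.pk.add
  ze := h.pk.bot
  b1 u hu v := h.br (d + 1) 1 (by omega) le_rfl rfl Finset.univ ∅ (Finset.union_empty _) u hu (h.pk.le hu) v (kk_empty v) (by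
    rw [gm_one]
    exact Subgroup.mem_top v)
  b2 v u hu := h.br 1 (d + 1) le_rfl (by omega) (by omega) ∅ Finset.univ (Finset.empty_union _) v (kk_empty v) (by
    rw [gm_one]
    exact Subgroup.mem_top v) u hu (h.pk.le hu)

end pso

section ex

variable {Pa : Par} {P P' A Be : Type} [Group P] [Group P'] [MulAction P A] [MulAction P' Be] {q d : ℕ}

theorem un_inst {α : Type} [Fintype α] (d₁ d₂ : DecidableEq α) (T T' : Finset α)
    (h : @Union.union _ (@Finset.instUnion α d₁) T T' = Finset.univ) : @Union.union _ (@Finset.instUnion α d₂) T T' = Finset.univ := by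
  have e : d₁ = d₂ := Subsingleton.elim _ _
  subst e
  exact h

/-- existence of `psi` -/
theorem pso_ex [NeZero q] (O : OwL P P' A Be (Fin (d + 1))) (hd : 1 ≤ d) (hc : d + 2 ≤ Pa.c) (hq : Pa.q 0 ∣ q)
    (hqe : ∀ s : Sp Pa Be, s ^ q = 1) {R : Subgroup P} {X : A → Du (Sp Pa A) q (d + 1)} {κ : P → Du (Sp Pa A) q (d + 1 + 1)}
    {B : ∀ i j : ℕ, Gr (Sp Pa A) i →+ Gr (Sp Pa A) j →+ ZMod q} (h : QB (sy Pa) (Pa.q (d + 1)) R X κ B) :
    ∃ psi : Sp Pa Be → ZMod q, Pso O d R psi κ B := by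
  obtain ⟨ψ, h1, -, h3⟩ := H88.OW.psi (β := Be) (M := d + 1) (by omega : 1 ≤ d + 1) (by omega) hq (by omega) h O.fs O.ow (O.ev Pa)
    (O.ev_sy Pa) (fun k => O.ki Pa k) (fun k b => by
      rw [O.ki_sy]
      by_cases hb : O.ow b = some k
      · rw [if_pos hb, if_neg (fun h => h hb)]
      · rw [if_neg hb, if_pos hb])
  have hK : O.Kk Pa Finset.univ ≤ gm (Sp Pa Be) (d + 1) := by
    have h4 := O.kk_le Pa Finset.univ
    rw [Finset.card_univ, Fintype.card_fin] at h4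
    exact h4
  obtain ⟨psi, e1, e2, e3⟩ := ext_psi (q := q) (O.Kk Pa Finset.univ) (O.Kk Pa Finset.univ ⊓ gm (Sp Pa Be) (d + 2)) (gm (Sp Pa Be) (d + 3))
    inf_le_left (fun u hu v hv => H73.OW.gm_le (by omega) (H82.S3.gm_comm2 (i := d + 1) (j := d + 1) (by omega) (by omega) (hK hu) (hK hv)))
    (fun u _ => by
      rw [hqe]
      exact one_mem _)
    (fun u => ψ.ap (gk (d + 2) u)) (fun u hu v hv => by
      rw [gk_mul hu.2 hv.2, map_add])
    (fun u hu hu' => by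
      rw [(gk_zero hu.2).2 hu', map_zero])
  have e4 : ∀ u ∈ O.Kk Pa Finset.univ, u ∈ gm (Sp Pa Be) (d + 2) → psi u = ψ.ap (gk (d + 2) u) := fun u hu hu' => e3 u ⟨hu, hu'⟩
  refine ⟨psi, ⟨fun g u hu => kk_cjl g hu, e1, hK, e2⟩, fun i j hi hj hij T T' hT u hu hui v hv hvj => ?_, fun g hg u hu hu' => ?_⟩
  · have h4 : ⁅u, v⁆ ∈ O.Kk Pa Finset.univ := by
      rw [← hT]
      exact O.kk_comm Pa hu hv
    have h5 : ⁅u, v⁆ ∈ gm (Sp Pa Be) (d + 2) := by
      rw [← hij]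
      exact H82.S3.gm_comm2 hi hj hui hvj
    rw [e4 _ h4 h5]
    exact h1 i j hi hj (by omega) T T' (un_inst _ _ T T' hT) u hui v hvj (fun k hk => hu k hk) fun k hk => hv k hk
  · rw [e4 _ hu hu', e4 _ (O.kk_smul Pa _ hu) (gm_smul _ hu')]
    have h4 := h3 (O.f g) hg (fun b => g⁻¹ • b) (fun b => by
      rw [O.fs_smul, map_inv]) (fun b => O.ow_smul _ _) (MulDistribMulAction.toMonoidHom _ g⁻¹) (fun b => by
        rw [MulDistribMulAction.toMonoidHom_apply]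
        exact H82.S3.smul_sy _ _) u hu' fun k => hu k (Finset.mem_univ k)
    rw [MulDistribMulAction.toMonoidHom_apply] at h4
    exact h4

end ex

section inst

theorem mem_tv {I V : Type} [Fintype I] (rv : V → Option I) (v : V) (k : I) : k ∈ Tv rv v ↔ rv v ≠ some k := by
  rcases hv : rv v with _ | i
  · rw [tv_none hv]
    exact ⟨fun _ h => by simp at h, fun _ => Finset.mem_univ k⟩
  · rw [tv_some hv, Finset.mem_compl, Finset.mem_singleton]
    exact ⟨fun h e => h (Option.some_injective _ e).symm, fun h e => h (congrArg some e.symm)⟩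

theorem kl_cp {Pa : Par} {P P' A Be I : Type} [Group P] [Group P'] [MulAction P A] [MulAction P' Be] [Fintype I] [d : DecidableEq I]
    (O : OwL P P' A Be I) (k : I) (x : Sp Pa Be) : O.kl Pa {k}ᶜ x = O.ki Pa k x := by
  have e : d = fun a b => Classical.propDecidable (a = b) := Subsingleton.elim _ _
  subst e
  exact O.kl_compl Pa k x

end inst

section abs

variable {Pa : Par} {P P' A Be I : Type} [Group P] [Group P'] [MulAction P A] [MulAction P' Be] [Fintype I]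
  {O : OwL P P' A Be I} {J V : Type} {q d : ℕ} {Y : AD (Sp Pa Be) P' J V} {rv : V → Option I}

omit [Fintype I] in
/-- a letter which is not `pp` is not at the place of a root -/
theorem Own.no (h : Own O Y rv) {j : J} (hj : j ∈ Y.Jf) (hp : ¬Y.pp j) : rv (Y.pj j) = none := by
  rcases hv : rv (Y.pj j) with _ | i
  · rfl
  · obtain ⟨j', -, hp', hb, -⟩ := h.rt _ (h.jl j hj).1 i hv
    have e := (h.jl j hj).2
    rw [hb, List.mem_singleton] at e
    rw [e] at hp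
    exact absurd hp' hp

theorem Own.gm (h : Own O Y rv) (hI : Fintype.card I = d + 1) {j : J} (hj : j ∈ Y.Jf) :
    O.Kk Pa (Tv rv (Y.pj j)) ≤ gm (Sp Pa Be) (if Y.pp j then d else d + 1) := by
  refine (O.kk_le Pa _).trans (H73.OW.gm_le ?_)
  by_cases hp : Y.pp j
  · rw [if_pos hp]
    rcases hv : rv (Y.pj j) with _ | i
    · rw [tv_none hv, Finset.card_univ]
      omega
    · rw [tv_some hv, Finset.card_compl, Finset.card_singleton]
      omega
  · rw [if_neg hp, tv_none (h.no hj hp), Finset.card_univ]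
    omega

theorem Own.dl (h : Own O Y rv) {j : J} (hj : j ∈ Y.Jf) (x : SP (Sp Pa Be) P') {u : Sp Pa Be} (hu : u ∈ O.Kk Pa (Tv rv (Y.pj j))) :
    dl (Y.t j) x u ∈ O.Kk Pa Finset.univ := by
  rcases hv : rv (Y.pj j) with _ | i
  · rw [tv_none hv] at hu
    exact mul_mem (kk_cjl _ hu) (kk_cjl _ (inv_mem hu))
  · rw [tv_some hv] at hu
    obtain ⟨j', hj', hp', hb, y, hy, ht⟩ := h.rt _ (h.jl j hj).1 i hv
    have e := (h.jl j hj).2
    rw [hb, List.mem_singleton] at e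
    rw [e, ht]
    exact kk_dl hy hu x

/-- the letter and the change generate the own indices -/
theorem Own.br (h : Own O Y rv) {j : J} (hj : j ∈ Y.Jf) (ht : Y.t j = il (Y.y j)) {u : Sp Pa Be}
    (hu : u ∈ O.Kk Pa (Tv rv (Y.pj j))) :
    ∃ T T' : Finset I, T ∪ T' = Finset.univ ∧ Y.y j ∈ O.Kk Pa T ∧ u ∈ O.Kk Pa T' := by
  rcases hv : rv (Y.pj j) with _ | i
  · rw [tv_none hv] at hu
    exact ⟨∅, Finset.univ, Finset.empty_union _, kk_empty _, hu⟩
  · rw [tv_some hv] at hu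
    obtain ⟨j', hj', hp', hb, y, hy, ht'⟩ := h.rt _ (h.jl j hj).1 i hv
    have e := (h.jl j hj).2
    rw [hb, List.mem_singleton] at e
    rw [← e] at ht'
    rw [ht'] at ht
    rw [← il_inj ht]
    exact ⟨{i}, {i}ᶜ, Finset.union_compl _, hy, hu⟩

theorem dj_jf (ht1 : ∀ j, j ∉ Y.Jf → Y.t j = 1) (τ : V → Sp Pa Be) {x x' : J → SP (Sp Pa Be) P'} (h : ∀ j ∈ Y.Jf, x j = x' j)
    {j : J} (hj : j ∈ Y.Jf) (u : Sp Pa Be) : Dj Y τ x j u = Dj Y τ x' j u := by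
  have h1 : ∀ l : List J, wd Y.t x l = wd Y.t x' l := by
    intro l
    unfold wd
    congr 1
    refine List.map_congr_left fun i _ => ?_
    by_cases hi : i ∈ Y.Jf
    · rw [h i hi]
    · rw [ht1 i hi, commutatorElement_one_left, commutatorElement_one_left]
  have h2 : ∀ v, Y.bk x v = Y.bk x' v := fun v => h1 _
  unfold Dj cn pf
  rw [h1, h j hj]
  congr 4
  congr 1
  funext w
  rw [h2]

/-- the family at `x` and at the representatives `x0` of the cell -/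
theorem eta_cel {S : Type} [Group S] {ev : Sp Pa Be →* S} (h : Own O Y rv) {psi : Sp Pa Be → ZMod q}
    (hp : PK P' (O.Kk Pa Finset.univ) psi (d + 1)) (hd : 2 ≤ d) (hI : Fintype.card I = d + 1)
    (ht1 : ∀ j, j ∉ Y.Jf → Y.t j = 1) (ze : J → Dz S q d × Dz S q (d + 1)) (τ : V → Sp Pa Be)
    {x x0 : J → SP (Sp Pa Be) P'} (hc : ∀ j ∈ Y.Jf, ∃ g ∈ O.Kk Pa (Tv rv (Y.pj j)), x j = il g * x0 j) {j : J} (hj : j ∈ Y.Jf) :
    (O.eta Pa Y rv (ka ev psi Y τ x ze) j : Du (Sp Pa Be) q d × Du (Sp Pa Be) q (d + 1)) = O.eta Pa Y rv (ka ev psi Y τ x0 ze) j := by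
  have h1 : ∀ j : Y.Jf, ∃ g, g ∈ O.Kk Pa (Tv rv (Y.pj j)) ∧ x j = il g * x0 j := fun j => by
    obtain ⟨g, hg, e⟩ := hc j j.2
    exact ⟨g, hg, e⟩
  choose g hg e using h1
  refine OwL.eta_congr Y rv fun u hu => ?_
  have h2 := ka_inv (ev := ev) h hp hd hI ze τ (z := fun _ => 1) (fun v _ => one_mem _) x0 hg hj hu
  have h3 : (fun v => τ v * 1) = τ := funext fun v => mul_one _
  rw [h3] at h2
  rw [← h2]
  unfold ka
  rw [dj_jf ht1 τ (x := x) (x' := Y.mv g x0) (fun i hi => by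
    unfold AD.mv
    rw [dif_pos hi]
    exact e ⟨i, hi⟩) hj u]

/-- THE VALUES OF THE FAMILY -/
theorem eta_val (h : Own O Y rv) {R : Subgroup P} {psi : Sp Pa Be → ZMod q} {κ : P → Du (Sp Pa A) q (d + 1 + 1)}
    {B : ∀ i j : ℕ, Gr (Sp Pa A) i →+ Gr (Sp Pa A) j →+ ZMod q} (hp : Pso O d R psi κ B) (hd : 2 ≤ d)
    (hI : Fintype.card I = d + 1) (ze : J → Dz (Sp Pa A) q d × Dz (Sp Pa A) q (d + 1)) (τ : V → Sp Pa Be)
    (x : J → SP (Sp Pa Be) P') (pb : ∀ j ∈ Y.Jf, Y.pp j → Y.bl (Y.pj j) = [j]) (pt : ∀ j ∈ Y.Jf, Y.pp j → Y.t j = il (Y.y j))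
    (hr : ∀ v ∈ Y.l, (Y.bk x v).right = 1) (hx : ∀ i, Y.t i = 1 ∨ (x i).right = Y.ph (Y.W i))
    (hxj : ∀ j ∈ Y.Jf, (x j).right = Y.ph (Y.W j)) (pw : ∀ j ∈ Y.Jf, Y.pp j → Y.ph (Y.W j) = 1)
    (h1 : ∀ j ∈ Y.Jf, Y.pp j → ∀ z, B 1 (d + 1) (gk 1 (O.ev Pa (Y.y j))) z = (ze j).1.rs.ap z)
    (h2 : ∀ j ∈ Y.Jf, ¬Y.pp j → (ze j).2.rs = zeta (fun w => κ (O.f (Y.ph w))) FreeGroup.of Y.W (Y.bl (Y.pj j)) j)
    (hR : ∀ w, O.f (Y.ph w) ∈ R) {j : J} (hj : j ∈ Y.Jf) {u : Sp Pa Be} (hu : u ∈ O.Kk Pa (Tv rv (Y.pj j))) :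
    (if Y.pp j then (O.eta Pa Y rv (ka (O.ev Pa) psi Y τ x ze) j : Du (Sp Pa Be) q d × Du (Sp Pa Be) q (d + 1)).1.ap (gk d u)
      else (O.eta Pa Y rv (ka (O.ev Pa) psi Y τ x ze) j : Du (Sp Pa Be) q d × Du (Sp Pa Be) q (d + 1)).2.ap (gk (d + 1) u)) =
      (if Y.pp j then (ze j).1.ap (gz d (O.ev Pa u)) else (ze j).2.ap (gz (d + 1) (O.ev Pa u))) + psi (Dj Y τ x j u) := by
  show _ = ka (O.ev Pa) psi Y τ x ze j u
  have hL := h.gm (d := d) hI hj
  have hadd : ∀ u ∈ O.Kk Pa (Tv rv (Y.pj j)), ∀ v ∈ O.Kk Pa (Tv rv (Y.pj j)),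
      ka (O.ev Pa) psi Y τ x ze j (u * v) = ka (O.ev Pa) psi Y τ x ze j u + ka (O.ev Pa) psi Y τ x ze j v := fun u hu v hv =>
    ka_add (O.ev Pa) Y τ x ze hp.pk hd j hL (fun u hu => h.dl hj _ hu) hu hv
  unfold OwL.eta
  by_cases hpp : Y.pp j
  · rw [if_pos hpp] at hL
    rw [if_pos hpp, if_pos hpp]
    refine O.exf_spec Pa (fun u hu _ v hv _ => hadd u hu v hv) (fun u hu hn => ?_) hu (hL hu)
    obtain ⟨T, T', hT, hy, hu'⟩ := h.br hj (pt j hj hpp) hu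
    have hy1 : Y.y j ∈ gm (Sp Pa Be) 1 := by
      rw [gm_one]
      exact Subgroup.mem_top _
    refine ka_pp (O.ev Pa) Y τ x ze hp.pk hpp (pb j hj hpp) (pt j hj hpp) hr (by rw [hxj j hj, pw j hj hpp]) hn (by
      rw [← hT]
      exact O.kk_comm Pa hy hu') (h.dl hj _ hu) ?_
    rw [hp.br 1 (d + 1) le_rfl (by omega) (by omega) T T' hT _ hy hy1 _ hu' hn, h1 j hj hpp, neg_neg]
  · rw [if_neg hpp] at hL
    rw [if_neg hpp, if_neg hpp]
    refine O.exf_spec Pa (fun u hu _ v hv _ => hadd u hu v hv) (fun u hu hn => ?_) hu (hL hu)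
    rw [tv_none (h.no hj hpp)] at hu
    exact ka_bb (O.ev Pa) Y τ x ze hp.pk (f := O.f) hpp hr hx (hxj j hj) hu hn (fun g hg => by
      obtain ⟨w, rfl⟩ := hg
      exact hp.ka _ (hR w) u hu hn) (h2 j hj hpp)

end abs

section frm

open H63.MA H38.BB H38.BG H57.PC H57.BRA H77.WD H77.WE H77.PC3 H35.CF H35.UB H77.S3 H71.S3 H48.OW

variable {K : Type} [Field K] [NumberField K] {Ω : Type} [Field Ω] [Algebra K Ω]
  {p N : ℕ} {ζ : K} {D : RD0 K p ζ} {Q : DP K Ω} {A : GS D Ω} {P : Type} [Group P] {hp : p.Prime}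
  {c : CL p N P} {M : ℕ} {Pa : Par} {G : SG c (Sp Pa (Px c))} {G' : SG (cO hp c M) (So hp c M Pa)}
  {B : SD D Q A} {X : FD A P (Sp Pa (Px c))} {W : WF A} {T : ℝ} {Zc : Finset (Pl K)}

/-- the own letter frame -/
theorem own_g (hG' : ∀ x, G'.y x = sy Pa x) {k Mw : ℕ} (hW : W.Ok B k Mw) (hZ : Disjoint Zc X.E) (hZc : Zc ⊆ W.Z) (hE : X.E ⊆ W.Z)
    (g : Pl K → Option (Px (cO hp c M))) (rv : Pl K → Option (Fin M))
    (hr : ∀ w i, rv w = some i → w ∈ Zc ∧ PPc X W T w ∧ ∃ s, g w = some s ∧ ow s = some i) :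
    Own (owl hp c M) (adf G' B (fdo hp c M X) W T Zc g) rv := by
  set Y := adf G' B (fdo hp c M X) W T Zc g with hY
  have eJ : Y.Jf = (sp Zc g ∪ X.E).disjSum Finset.univ := rfl
  have jinl : ∀ v, Sum.inl v ∈ Y.Jf ↔ v ∈ sp Zc g ∨ v ∈ X.E := fun v => by
    rw [eJ, Finset.inl_mem_disjSum, Finset.mem_union]
  have hspZ : ∀ v, v ∈ sp Zc g → v ∈ W.Z := fun v hv => hZc (mem_sp.1 hv).1
  have hJZ : ∀ v, Sum.inl v ∈ Y.Jf → v ∈ W.Z := fun v hv =>
    ((jinl v).1 hv).elim (hspZ v) fun h => hE h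
  have bl0 : ∀ v, v ∈ D.S0 → Y.bl v =
      ((List.finRange A.g).filter fun i => B.pl i = v).map Sum.inr := fun v hv => if_pos hv
  have bl1 : ∀ v, v ∉ D.S0 → Y.bl v = [Sum.inl v] := fun v hv => if_neg hv
  have mb0 : ∀ v, v ∈ D.S0 → ∀ j, j ∈ Y.bl v ↔ ∃ i, B.pl i = v ∧ j = Sum.inr i := by
    intro v hv j
    rw [bl0 v hv, List.mem_map]
    constructor
    · rintro ⟨i, hi, rfl⟩
      refine ⟨i, ?_, rfl⟩
      have := (List.mem_filter.1 hi).2
      simpa using this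
    · rintro ⟨i, hi, rfl⟩
      refine ⟨i, List.mem_filter.2 ⟨List.mem_finRange _, ?_⟩, rfl⟩
      simpa using hi
  have pinl : ∀ v, Y.pj (Sum.inl v) = v := fun v => rfl
  have pinr : ∀ i, Y.pj (Sum.inr i) = B.pl i := fun i => rfl
  refine ⟨hW.nd, fun v _ => ?_, fun v j hj => ?_, fun j hj => ?_, fun w hw i hi => ?_⟩
  · by_cases h : v ∈ D.S0
    · rw [bl0 v h]
      exact ((List.nodup_finRange _).filter _).map Sum.inr_injective
    · rw [bl1 v h]
      exact List.nodup_singleton _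
  · by_cases h : v ∈ D.S0
    · obtain ⟨i, hi, rfl⟩ := (mb0 v h j).1 hj
      exact hi
    · rw [bl1 v h, List.mem_singleton] at hj
      rw [hj]
      exact pinl v
  · rcases j with v | i
    · have h := hJZ v hj
      refine ⟨(hW.lz v).2 (Or.inl h), ?_⟩
      rw [pinl, bl1 v (hW.zs v h)]
      exact List.mem_singleton.2 rfl
    · refine ⟨(hW.lz _).2 (Or.inr (B.mem i)), ?_⟩
      rw [pinr]
      exact (mb0 _ (B.mem i) _).2 ⟨i, rfl, rfl⟩
  · obtain ⟨hwZ, hwp, s, hs, hso⟩ := hr w i hi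
    have hws : w ∈ sp Zc g := mem_sp.2 ⟨hwZ, by
      rw [hs]
      exact Option.some_ne_none s⟩
    refine ⟨Sum.inl w, (jinl w).2 (Or.inl hws), ⟨hws, (ppo X W T w).2 hwp⟩, bl1 w (hW.zs w (hspZ w hws)), sy Pa s, ?_, ?_⟩
    · have h1 : s = mkx (fs s) (some i) := by
        rw [← hso]
        exact (mkx_eta s).symm
      rw [h1]
      exact (owl hp c M).sy_kk Pa i (fs s)
    · show (if w ∈ X.E then (⟨(owl hp c M).inc Pa (X.sv w), (X.φ (W.L.t w), 1)⟩ : SP (So hp c M Pa) (P × Ci p M)) else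
        (if w ∈ Zc then g w else none).elim 1 fun s => il (G'.y s)) = il (sy Pa s)
      rw [if_neg (Finset.disjoint_left.1 hZ hwZ), if_pos hwZ, hs]
      show il (G'.y s) = _
      rw [hG']

theorem own_rc (hG' : ∀ x, G'.y x = sy Pa x) {k Mw : ℕ} (hW : W.Ok B k Mw) (hZ : Disjoint Zc X.E) (hZc : Zc ⊆ W.Z) (hE : X.E ⊆ W.Z)
    (f : Pl K → Option (Px c)) {v : Fin M → Pl K} (hv : Function.Injective v) (hvZ : ∀ k, v k ∈ Zc) (hvP : ∀ k, PPc X W T (v k))
    (hvf : ∀ k, f (v k) ≠ none) :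
    Own (owl hp c M) (adf G' B (fdo hp c M X) W T Zc (H93.OW.rc f v)) (H93.OW.ixv v) := by
  refine own_g hG' hW hZ hZc hE _ _ fun w i hi => ?_
  have h1 := H93.OW.ixv_some hi
  subst h1
  obtain ⟨a, ha⟩ := Option.ne_none_iff_exists'.1 (hvf i)
  refine ⟨hvZ i, hvP i, mkx a (some i), ?_, ow_mkx _ _⟩
  rw [H93.OW.rc_of hv, ha]
  rfl

/-- CELL MEMBERSHIP -/
theorem cel_iff (hM : 2 ≤ M) (rv : Pl K → Option (Fin M)) (v : Pl K) (x x0 : SP (So hp c M Pa) (P × Ci p M)) :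
    (∀ k, rv v ≠ some k → KL hp c M Pa {k}ᶜ x = KL hp c M Pa {k}ᶜ x0) ↔
      ∃ g ∈ (owl hp c M).Kk Pa (Tv rv v), x = il g * x0 := by
  have hT := mem_tv rv v
  constructor
  · intro h
    obtain ⟨k₀, hk₀⟩ : ∃ k, rv v ≠ some k := by
      rcases hv : rv v with _ | i
      · exact ⟨⟨0, by omega⟩, by simp⟩
      · by_cases hi : i = ⟨0, by omega⟩
        · refine ⟨⟨1, by omega⟩, fun e => ?_⟩
          have e1 := Option.some_injective _ e
          rw [hi] at e1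
          exact absurd (congrArg Fin.val e1) (by simp)
        · exact ⟨⟨0, by omega⟩, fun e => hi (Option.some_injective _ e)⟩
    have hr : x.right = x0.right := by
      rw [← KL_right (hp := hp) (c := c) {k₀}ᶜ x, h k₀ hk₀, KL_right]
    have h1 : (x * x0⁻¹).right = 1 := by
      rw [SemidirectProduct.mul_right, SemidirectProduct.inv_right, hr, mul_inv_cancel]
    have h2 := il_lf h1
    refine ⟨(x * x0⁻¹).left, fun k hk => ?_, ?_⟩
    · rw [← kl_cp (owl hp c M) k, ← KL_left (hp := hp) (c := c), map_mul, map_inv, h k ((hT k).1 hk), mul_inv_cancel]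
      rfl
    · rw [← h2, inv_mul_cancel_right]
  · rintro ⟨g, hg, rfl⟩ k hk
    rw [map_mul, KL_il, kl_cp (owl hp c M) k, hg k ((hT k).2 hk), H73.S3.il_one, one_mul]

end frm

section val

open H63.MA H38.BB H38.BG H57.PC H57.BRA H77.WD H77.WE H77.PC3 H35.CF H35.UB H77.S3 H71.S3 H48.OW

variable {K : Type} [Field K] [NumberField K] {Ω : Type} [Field Ω] [Algebra K Ω]
  {p N : ℕ} {ζ : K} {D : RD0 K p ζ} {Q : DP K Ω} {A : GS D Ω} {P : Type} [Group P] {hp : p.Prime}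
  {c : CL p N P} {q d : ℕ} {Pa : Par} {G : SG c (Sp Pa (Px c))} {G' : SG (cO hp c (d + 1)) (So hp c (d + 1) Pa)}
  {B : SD D Q A} {X : FD A P (Sp Pa (Px c))} {W : WF A} {T : ℝ} {Zc : Finset (Pl K)}

/-- right parts of the representatives -/
theorem cel_rt {J V S P : Type} [Group S] [Group P] [MulDistribMulAction P S] {Y : AD S P J V} {p k Mw q : ℕ} (hY : Y.Okw p k Mw q)
    (τ : V → S) {x0 : J → SP S P} (hc : ∀ j ∈ Y.Jf, ∃ g : S, Y.vl τ j = il g * x0 j) :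
    (∀ j ∈ Y.Jf, (x0 j).right = Y.ph (Y.W j)) ∧ (∀ i, Y.t i = 1 ∨ (x0 i).right = Y.ph (Y.W i)) ∧ ∀ v ∈ Y.l, (Y.bk x0 v).right = 1 := by
  have h1 : ∀ j ∈ Y.Jf, (x0 j).right = Y.ph (Y.W j) := fun j hj => by
    obtain ⟨g, hg⟩ := hc j hj
    have h2 := congrArg SemidirectProduct.right hg
    rw [H73.S3.vl_rt] at h2
    rw [h2]
    show _ = 1 * (x0 j).right
    rw [one_mul]
  have h2 : ∀ i, Y.t i = 1 ∨ (x0 i).right = Y.ph (Y.W i) := fun i => by
    by_cases hi : i ∈ Y.Jf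
    · exact Or.inr (h1 i hi)
    · exact Or.inl (hY.t1 i hi)
  refine ⟨h1, h2, fun v hv => ?_⟩
  unfold AD.bk
  rw [H73.S3.bk_rt Y x0 h2, hY.hb v hv]

/-- the changes of a cell are in the layers -/
theorem adf_gm {f : Pl K → Option (Px c)} {g : Pl K → Option (Px (cO hp c (d + 1)))} (hf : fe g = f) {rv : Pl K → Option (Fin (d + 1))}
    (hO : Own (owl hp c (d + 1)) (adf G' B (fdo hp c (d + 1) X) W T Zc g) rv) {j : Pl K ⊕ Fin A.g}
    (hj : j ∈ (adf G B X W T Zc f).Jf) {u : So hp c (d + 1) Pa}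
    (hu : u ∈ (owl hp c (d + 1)).Kk Pa (Tv rv ((adf G' B (fdo hp c (d + 1) X) W T Zc g).pj j))) :
    u ∈ gm (So hp c (d + 1) Pa) (if (adf G B X W T Zc f).pp j then d else d + 1) := by
  subst hf
  have hj' : j ∈ (adf G' B (fdo hp c (d + 1) X) W T Zc g).Jf := by
    rwa [ado_jf]
  have h1 := hO.gm (Fintype.card_fin _) hj' hu
  rw [if_congr (ado_pp (G := G) j) rfl rfl] at h1
  exact h1

theorem adf_dl {f : Pl K → Option (Px c)} {g : Pl K → Option (Px (cO hp c (d + 1)))} (hf : fe g = f) {rv : Pl K → Option (Fin (d + 1))}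
    (hO : Own (owl hp c (d + 1)) (adf G' B (fdo hp c (d + 1) X) W T Zc g) rv) {j : Pl K ⊕ Fin A.g}
    (hj : j ∈ (adf G B X W T Zc f).Jf) (x : SP (So hp c (d + 1) Pa) (P × Ci p (d + 1))) {u : So hp c (d + 1) Pa}
    (hu : u ∈ (owl hp c (d + 1)).Kk Pa (Tv rv ((adf G' B (fdo hp c (d + 1) X) W T Zc g).pj j))) :
    dl ((adf G' B (fdo hp c (d + 1) X) W T Zc g).t j) x u ∈ (owl hp c (d + 1)).Kk Pa Finset.univ := by
  subst hf
  have hj' : j ∈ (adf G' B (fdo hp c (d + 1) X) W T Zc g).Jf := by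
    rwa [ado_jf]
  exact hO.dl hj' x hu

/-- THE VALUES OF THE FAMILY, for the frame of a configuration -/
theorem adf_etg (hG : ∀ x, G.y x = sy Pa x) (hG' : ∀ x, G'.y x = sy Pa x) (hX : X.Ok G B W) (hZ : Disjoint Zc X.E)
    {f : Pl K → Option (Px c)} {g : Pl K → Option (Px (cO hp c (d + 1)))} (hf : fe g = f) {rv : Pl K → Option (Fin (d + 1))} {k Mw : ℕ}
    (hY : (adf G' B (fdo hp c (d + 1) X) W T Zc g).Okw p k Mw q) (hO : Own (owl hp c (d + 1)) (adf G' B (fdo hp c (d + 1) X) W T Zc g) rv)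
    {e : ℕ} {x : (Px c → Du (Sp Pa (Px c)) q (d + 1)) × (P → Du (Sp Pa (Px c)) q (d + 1 + 1))}
    {Bf : ∀ i j : ℕ, Gr (Sp Pa (Px c)) i →+ Gr (Sp Pa (Px c)) j →+ ZMod q} (hQ : QB G.y e (Rh X W) x.1 x.2 Bf)
    {psi : So hp c (d + 1) Pa → ZMod q} (hψ : Pso (owl hp c (d + 1)) d (Rh X W) psi x.2 Bf) (hd : 2 ≤ d)
    (ze : Pl K ⊕ Fin A.g → Dz (Sp Pa (Px c)) q d × Dz (Sp Pa (Px c)) q (d + 1))
    (hz : (adf G B X W T Zc f).rz (fun j => ze j) = etX G B X W T Zc f x) (τ : Pl K → So hp c (d + 1) Pa)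
    {x0 : Pl K ⊕ Fin A.g → SP (So hp c (d + 1) Pa) (P × Ci p (d + 1))}
    (hc : ∀ j ∈ (adf G' B (fdo hp c (d + 1) X) W T Zc g).Jf, ∃ u : So hp c (d + 1) Pa,
      (adf G' B (fdo hp c (d + 1) X) W T Zc g).vl τ j = il u * x0 j) {j : Pl K ⊕ Fin A.g} (hj : j ∈ (adf G B X W T Zc f).Jf)
    {u : So hp c (d + 1) Pa} (hu : u ∈ (owl hp c (d + 1)).Kk Pa (Tv rv ((adf G' B (fdo hp c (d + 1) X) W T Zc g).pj j))) :
    (if (adf G B X W T Zc f).pp j then ((owl hp c (d + 1)).eta Pa (adf G' B (fdo hp c (d + 1) X) W T Zc g) rv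
        (ka ((owl hp c (d + 1)).ev Pa) psi (adf G' B (fdo hp c (d + 1) X) W T Zc g) τ x0 ze) j :
          Du (So hp c (d + 1) Pa) q d × Du (So hp c (d + 1) Pa) q (d + 1)).1.ap (gk d u)
      else ((owl hp c (d + 1)).eta Pa (adf G' B (fdo hp c (d + 1) X) W T Zc g) rv
        (ka ((owl hp c (d + 1)).ev Pa) psi (adf G' B (fdo hp c (d + 1) X) W T Zc g) τ x0 ze) j :
          Du (So hp c (d + 1) Pa) q d × Du (So hp c (d + 1) Pa) q (d + 1)).2.ap (gk (d + 1) u)) =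
      (if (adf G B X W T Zc f).pp j then (ze j).1.ap (gz d ((owl hp c (d + 1)).ev Pa u))
        else (ze j).2.ap (gz (d + 1) ((owl hp c (d + 1)).ev Pa u))) +
        psi (Dj (adf G' B (fdo hp c (d + 1) X) W T Zc g) τ x0 j u) := by
  subst hf
  obtain ⟨r1, r2, r3⟩ := cel_rt hY τ hc
  have hJ : ∀ j, j ∈ (adf G' B (fdo hp c (d + 1) X) W T Zc g).Jf → j ∈ (adf G B X W T Zc (fe g)).Jf := fun j hj => by
    rwa [ado_jf] at hj
  have hj' : j ∈ (adf G' B (fdo hp c (d + 1) X) W T Zc g).Jf := by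
    rwa [ado_jf]
  have hpp : ∀ j, (adf G' B (fdo hp c (d + 1) X) W T Zc g).pp j ↔ (adf G B X W T Zc (fe g)).pp j := fun j => ado_pp j
  have hph : ∀ w, (owl hp c (d + 1)).f ((adf G' B (fdo hp c (d + 1) X) W T Zc g).ph w) = (adf G B X W T Zc (fe g)).ph w := fun w => by
    rw [ado_ph (G := G)]
    rfl
  have key := eta_val (d := d) hO hψ hd (Fintype.card_fin _) ze τ x0 hY.pb hY.pt r3 r2 r1 hY.pw (fun j hj hjp z => ?_) (fun j hj hjp => ?_)
    (fun w => ?_) hj' hu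
  · rw [if_congr (hpp j) rfl rfl, if_congr (hpp j) rfl rfl] at key
    exact key
  · have h1 := congrFun hz ⟨j, hJ j hj⟩
    unfold AD.rz etX AD.eX at h1
    rw [if_pos ((hpp j).1 hjp), if_pos ((hpp j).1 hjp)] at h1
    have h2 : (ze j).1.rs = xf x.1 (fe g) j := congrArg Prod.fst h1
    rw [h2]
    rcases j with w | i
    · obtain ⟨hw, -⟩ := hjp
      have hw1 := mem_sp.1 hw
      obtain ⟨s, hs⟩ := Option.ne_none_iff_exists'.1 hw1.2
      have h3 : (adf G' B (fdo hp c (d + 1) X) W T Zc g).y (Sum.inl w) = sy Pa s := by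
        unfold AD.y
        show (if w ∈ X.E then (⟨(owl hp c (d + 1)).inc Pa (X.sv w), (X.φ (W.L.t w), 1)⟩ : SP (So hp c (d + 1) Pa) (P × Ci p (d + 1))) else
          (if w ∈ Zc then g w else none).elim 1 fun s => il (G'.y s)).left = sy Pa s
        rw [if_neg (Finset.disjoint_left.1 hZ hw1.1), if_pos hw1.1, hs]
        exact hG' s
      rw [h3, OwL.ev_sy, ← hG]
      have h4 : xf x.1 (fe g) (Sum.inl w : Pl K ⊕ Fin A.g) = x.1 (fs s) := by
        show (fe g w).elim 0 x.1 = _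
        unfold fe
        rw [hs]
        rfl
      rw [h4]
      exact hQ.gen _ z
    · exact absurd hjp (fun h => h)
  · have h1 := congrFun hz ⟨j, hJ j hj⟩
    unfold AD.rz etX AD.eX at h1
    have hjn : ¬(adf G B X W T Zc (fe g)).pp j := fun h => hjp ((hpp j).2 h)
    rw [if_neg hjn, if_neg hjn] at h1
    have h2 := congrArg Prod.snd h1
    refine Eq.trans h2 ?_
    have h3 : (fun w => x.2 ((owl hp c (d + 1)).f ((adf G' B (fdo hp c (d + 1) X) W T Zc g).ph w))) =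
        fun w => x.2 ((adf G B X W T Zc (fe g)).ph w) := funext fun w => by rw [hph]
    rw [h3]
    rfl
  · rw [hph, ph_hat G B X W hX T Zc (fe g)]
    exact ⟨w, rfl⟩

/-- the values of the family at the changes of the true values -/
theorem adf_eta (hG : ∀ x, G.y x = sy Pa x) (hG' : ∀ x, G'.y x = sy Pa x) (hX : X.Ok G B W) (hZ : Disjoint Zc X.E)
    {f : Pl K → Option (Px c)} {g : Pl K → Option (Px (cO hp c (d + 1)))} (hf : fe g = f) {rv : Pl K → Option (Fin (d + 1))} {k Mw : ℕ}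
    (hY : (adf G' B (fdo hp c (d + 1) X) W T Zc g).Okw p k Mw q) (hO : Own (owl hp c (d + 1)) (adf G' B (fdo hp c (d + 1) X) W T Zc g) rv)
    {e : ℕ} {x : (Px c → Du (Sp Pa (Px c)) q (d + 1)) × (P → Du (Sp Pa (Px c)) q (d + 1 + 1))}
    {Bf : ∀ i j : ℕ, Gr (Sp Pa (Px c)) i →+ Gr (Sp Pa (Px c)) j →+ ZMod q} (hQ : QB G.y e (Rh X W) x.1 x.2 Bf)
    {psi : So hp c (d + 1) Pa → ZMod q} (hψ : Pso (owl hp c (d + 1)) d (Rh X W) psi x.2 Bf) (hd : 2 ≤ d)
    (ze : Pl K ⊕ Fin A.g → Dz (Sp Pa (Px c)) q d × Dz (Sp Pa (Px c)) q (d + 1))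
    (hz : (adf G B X W T Zc f).rz (fun j => ze j) = etX G B X W T Zc f x) (τ : Pl K → So hp c (d + 1) Pa)
    {x0 : Pl K ⊕ Fin A.g → SP (So hp c (d + 1) Pa) (P × Ci p (d + 1))} {u : Pl K ⊕ Fin A.g → So hp c (d + 1) Pa}
    (hc : ∀ j ∈ (adf G' B (fdo hp c (d + 1) X) W T Zc g).Jf, u j ∈ (owl hp c (d + 1)).Kk Pa (Tv rv ((adf G' B (fdo hp c (d + 1) X) W T Zc g).pj j)) ∧
      (adf G' B (fdo hp c (d + 1) X) W T Zc g).vl τ j = il (u j) * x0 j) {j : Pl K ⊕ Fin A.g} (hj : j ∈ (adf G B X W T Zc f).Jf) :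
    (if (adf G B X W T Zc f).pp j then ((owl hp c (d + 1)).eta Pa (adf G' B (fdo hp c (d + 1) X) W T Zc g) rv
        (ka ((owl hp c (d + 1)).ev Pa) psi (adf G' B (fdo hp c (d + 1) X) W T Zc g) τ x0 ze) j :
          Du (So hp c (d + 1) Pa) q d × Du (So hp c (d + 1) Pa) q (d + 1)).1.ap (gk d (u j))
      else ((owl hp c (d + 1)).eta Pa (adf G' B (fdo hp c (d + 1) X) W T Zc g) rv
        (ka ((owl hp c (d + 1)).ev Pa) psi (adf G' B (fdo hp c (d + 1) X) W T Zc g) τ x0 ze) j :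
          Du (So hp c (d + 1) Pa) q d × Du (So hp c (d + 1) Pa) q (d + 1)).2.ap (gk (d + 1) (u j))) =
      (if (adf G B X W T Zc f).pp j then (ze j).1.ap (gz d ((owl hp c (d + 1)).ev Pa (u j)))
        else (ze j).2.ap (gz (d + 1) ((owl hp c (d + 1)).ev Pa (u j)))) +
        psi (Dj (adf G' B (fdo hp c (d + 1) X) W T Zc g) τ x0 j (u j)) := by
  exact adf_etg hG hG' hX hZ hf hY hO hQ hψ hd ze hz τ (fun j hj => ⟨u j, (hc j hj).2⟩) hj (hc j (by
    subst hf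
    rwa [ado_jf])).1

end val

end H12.OW
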