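import Pool.Agent.H82.S3.Dus
import Pool.Agent.H82.S3.Lgi

/-!
# [H12 OW KIL] MP_b39724_nt, theorem OW, S4: the group with own letters

* `rsp p`: restriction of a function on words to the words with all letters in `p`. `kp p : Sp Pa α →* Sp Pa α`: kills the letters not in `p`. `dg_kp`.
* `OwL P P' A Be I`: the letters `Be` are the pairs of a letter of `A` and an own index in `Option I` (`fs`, `ow`, `pk`); `P'` acts on `Be` through `f : P' →* P`.
  `O.ev : Sp Pa Be →* Sp Pa A`, `O.inc : Sp Pa A →* Sp Pa Be` (letters `pk a none`). `O.kl D` (`D : Finset I`): kills the letters of own index not in `D`;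
  `O.ki i`: kills the letters of own index `i`. `spm f e`: the extension of an equivariant `f : S →* S'` to `SP S P →* SP S' P'`, `e : P →* P'`.
* `Kk T`: the elements which die when any own letter of index in `T` is killed. `K = Kk univ`, `K_i = Kk {i}ᶜ`. `kk_le`: `Kk T ≤ gm T.card`.
* `grm f m`: the map of the layers. `pj T n : Gr St n →+ Gr St n`: the projection to the classes of `Kk T`. `ext_kk`: extension of functionals.
* `ext_psi`: extension of a homomorphism from a subgroup to an abelian section, values in `ZMod q`.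
-/

set_option autoImplicit false

open scoped Classical commutatorElement

noncomputable section

namespace H12.OW

open H62.BL Pool.Agent.H61.Tu H88.S3 H82.S3

open H73.S3 (gm Gr gk Du SP il gk_surj gk_zero gk_mul gk_inv gk_one gk_of smul_gk br_gk gm_smul gm_anti gm_comm gm_comm' gr_lift gm_normal)

section rs

variable {α R : Type} [CommRing R]

/-- restriction to the words with all letters in `p` -/
def rsp (p : α → Prop) (x : AW α R) : AW α R := fun w => if ∀ a ∈ w, p a then x w else 0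

theorem rsp_apply (p : α → Prop) (x : AW α R) (w : List α) : rsp p x w = if ∀ a ∈ w, p a then x w else 0 := rfl

theorem rsp_cv (p : α → Prop) (x y : List α → R) (w : List α) :
    cv (fun u => if ∀ a ∈ u, p a then x u else 0) (fun u => if ∀ a ∈ u, p a then y u else 0) w =
      if ∀ a ∈ w, p a then cv x y w else 0 := by
  induction w generalizing x with
  | nil => simp [cv]
  | cons a w ih =>
    rw [cv, cv]
    by_cases ha : p a
    · have h1 : (fun u => if ∀ b ∈ a :: u, p b then x (a :: u) else 0) = fun u => if ∀ b ∈ u, p b then (fun u => x (a :: u)) u else 0 := by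
        funext u
        simp [ha]
      rw [h1, ih (fun u => x (a :: u))]
      by_cases hw : ∀ b ∈ w, p b
      · have h2 : ∀ b ∈ a :: w, p b := by
          intro b hb
          rcases List.mem_cons.1 hb with rfl | hb
          · exact ha
          · exact hw b hb
        rw [if_pos hw, if_pos h2, if_pos h2]
        simp
      · have h2 : ¬ ∀ b ∈ a :: w, p b := fun h => hw fun b hb => h b (List.mem_cons_of_mem _ hb)
        rw [if_neg hw, if_neg h2, if_neg h2, mul_zero, add_zero]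
    · have h1 : (fun u => if ∀ b ∈ a :: u, p b then x (a :: u) else 0) = fun u => if ∀ b ∈ u, p b then (fun _ => (0 : R)) u else 0 := by
        funext u
        simp [ha]
      have h2 : ¬ ∀ b ∈ a :: w, p b := fun h => ha (h a List.mem_cons_self)
      have h3 : cv (fun _ => (0 : R)) y w = 0 := by
        have h4 : ∀ y : AW α R, ((0 : AW α R) * y) w = 0 := fun y => by rw [zero_mul]; rfl
        exact h4 y
      rw [h1, ih (fun _ => 0), h3, ite_self, add_zero, if_neg h2, if_neg h2, mul_zero]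

/-- the ring homomorphism -/
def rsh (p : α → Prop) : AW α R →+* AW α R where
  toFun := rsp p
  map_one' := by
    ext w
    rw [rsp_apply, aw_one]
    by_cases hw : w = []
    · subst hw
      simp
    · simp [hw]
  map_mul' x y := by
    ext w
    exact (rsp_cv p x y w).symm
  map_zero' := by ext w; exact ite_self 0
  map_add' x y := by
    ext w
    rw [aw_add, rsp_apply, rsp_apply, rsp_apply, aw_add]
    split_ifs
    · rfl
    · rw [add_zero]

theorem rsh_apply (p : α → Prop) (x : AW α R) : rsh p x = rsp p x := rfl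

theorem rsh_le (p : α → Prop) (a : α) : rsh p (le a : AW α R) = if p a then le a else 0 := by
  ext w
  rw [rsh_apply, rsp_apply]
  by_cases ha : p a
  · rw [if_pos ha, le_apply]
    by_cases hw : w = [a]
    · subst hw
      simp [ha]
    · simp [hw]
  · rw [if_neg ha, le_apply, aw_zero]
    by_cases hw : w = [a]
    · subst hw
      simp [ha]
    · simp [hw]

end rs

section kp

variable (P : Par) {α β : Type}

/-- the words: kill the letters not in `p` -/
def kf (p : α → Prop) : FreeGroup α →* FreeGroup α := FreeGroup.lift fun a => if p a then FreeGroup.of a else 1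

theorem mu_kf (p : α → Prop) (g : FreeGroup α) : mu (kf p g) = rsh p (mu g) := by
  have h1 : (mg : FreeGroup α →* _).comp (kf p) =
      (Units.map ((rsh p : AW α ℤ →+* AW α ℤ) : AW α ℤ →* AW α ℤ)).comp mg := by
    refine FreeGroup.ext_hom _ _ fun a => Units.ext ?_
    rw [MonoidHom.comp_apply, kf, FreeGroup.lift_apply_of]
    change mu (if p a then FreeGroup.of a else 1) = rsh p (mu (FreeGroup.of a))
    rw [mu_of, map_add, map_one, rsh_le]
    split_ifs
    · rw [mu_of]
    · rw [mu_one, add_zero]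
  exact congrArg Units.val (DFunLike.congr_fun h1 g)

theorem lp_kf (p : α → Prop) (n : ℕ) (g : FreeGroup α) : lp n (kf p g) = rsh p (lp n g) := by
  unfold H82.S3.lp
  rw [mu_kf]
  ext w
  have h1 : rsh p (pa (n + 1) (mu g - 1)) w = if ∀ a ∈ w, p a then pa (n + 1) (mu g - 1) w else 0 := rfl
  have h2 : rsh p (mu g) w = if ∀ a ∈ w, p a then mu g w else 0 := rfl
  rw [h1, pa_apply, pa_apply, aw_sub, aw_sub, h2, aw_one]
  by_cases hw : w.length = n + 1
  · have hw' : w ≠ [] := by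
      rintro rfl
      simp at hw
    rw [if_pos hw, if_pos hw, if_neg hw', sub_zero, sub_zero]
  · rw [if_neg hw, if_neg hw, ite_self]

theorem kp_exists (p : α → Prop) : ∃ f : Sp P α →* Sp P α, ∀ a, f (sy P a) = if p a then sy P a else 1 :=
  lft_exists P (gam_c P) (fun _ _ _ ht => gam_pow P ht) fun a => if p a then sy P a else 1

/-- kill the letters not in `p` -/
def kp (p : α → Prop) : Sp P α →* Sp P α := (kp_exists P p).choose

theorem kp_sy (p : α → Prop) (a : α) : kp P p (sy P a) = if p a then sy P a else 1 := (kp_exists P p).choose_spec a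

theorem kp_smk (p : α → Prop) (g : FreeGroup α) : kp P p (smk P g) = smk P (kf p g) := by
  have h1 : (kp P p).comp (smk P) = (smk P).comp (kf p) := FreeGroup.ext_hom _ _ fun a => by
    rw [MonoidHom.comp_apply, MonoidHom.comp_apply, kf, FreeGroup.lift_apply_of]
    refine (kp_sy P p a).trans ?_
    split_ifs
    · rfl
    · exact (map_one _).symm
  exact DFunLike.congr_fun h1 g

theorem kp_kp (p p' : α → Prop) (x : Sp P α) : kp P p (kp P p' x) = kp P (fun a => p a ∧ p' a) x := by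
  have h1 : (kp P p).comp (kp P p') = kp P (fun a => p a ∧ p' a) := sp_hom_ext P _ _ fun a => by
    rw [MonoidHom.comp_apply, kp_sy, kp_sy]
    by_cases h' : p' a
    · rw [if_pos h', kp_sy]
      by_cases h : p a
      · rw [if_pos h, if_pos ⟨h, h'⟩]
      · rw [if_neg h, if_neg fun hh => h hh.1]
    · rw [if_neg h', map_one, if_neg fun hh => h' hh.2]
  exact DFunLike.congr_fun h1 x

theorem kp_congr {p p' : α → Prop} (h : ∀ a, p a ↔ p' a) : kp P p = kp P p' := by
  have h1 : p = p' := funext fun a => propext (h a)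
  rw [h1]

theorem kp_comm (p p' : α → Prop) (x : Sp P α) : kp P p (kp P p' x) = kp P p' (kp P p x) := by
  rw [kp_kp, kp_kp, kp_congr P fun a => and_comm]

theorem kp_true {p : α → Prop} (h : ∀ a, p a) (x : Sp P α) : kp P p x = x := by
  have h1 : kp P p = MonoidHom.id (Sp P α) := sp_hom_ext P _ _ fun a => by
    rw [kp_sy, if_pos (h a)]
    rfl
  rw [h1]
  rfl

theorem kp_smap (σ : α → β) (p : β → Prop) (x : Sp P α) : kp P p (smap P σ x) = smap P σ (kp P (fun a => p (σ a)) x) := by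
  have h1 : (kp P p).comp (smap P σ) = (smap P σ).comp (kp P fun a => p (σ a)) := sp_hom_ext P _ _ fun a => by
    rw [MonoidHom.comp_apply, MonoidHom.comp_apply, smap_sy, kp_sy, kp_sy]
    split_ifs
    · rw [smap_sy]
    · rw [map_one]
  exact DFunLike.congr_fun h1 x

theorem kp_smul {Q : Type} [Group Q] [MulAction Q α] {p : α → Prop} (hp : ∀ (g : Q) a, p (g • a) ↔ p a) (g : Q) (x : Sp P α) :
    kp P p (g • x) = g • kp P p x := by
  rw [sp_smul, sp_smul, kp_smap, kp_congr P fun a => hp g a]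

theorem dg_kp (p : α → Prop) {n : ℕ} (hn : n + 1 ≤ P.c) (x : Sp P α) : dg P n (kp P p x) = rsp p (dg P n x) := by
  obtain ⟨g, rfl⟩ := smk_surj P x
  rw [kp_smk, dg_mk P hn, dg_mk P hn, lp_kf]
  ext w
  rw [rd_apply, rsh_apply, rsp_apply, rsp_apply]
  split_ifs
  · rfl
  · exact Int.cast_zero

theorem dg_length {n : ℕ} (hn : n + 1 ≤ P.c) (x : Sp P α) (w : List α) (hw : dg P n x w ≠ 0) : w.length = n + 1 := by
  obtain ⟨g, rfl⟩ := smk_surj P x
  rw [dg_mk P hn] at hw
  by_contra h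
  apply hw
  rw [rd_apply]
  unfold H82.S3.lp
  rw [pa_apply, if_neg h]
  exact Int.cast_zero

end kp

section own

/-- letters with an own index -/
structure OwL (P P' A Be I : Type) [Group P] [Group P'] [MulAction P A] [MulAction P' Be] where
  f : P' →* P
  fs : Be → A
  ow : Be → Option I
  pk : A → Option I → Be
  fs_pk : ∀ a o, fs (pk a o) = a
  ow_pk : ∀ a o, ow (pk a o) = o
  pk_fs : ∀ b, pk (fs b) (ow b) = b
  fs_smul : ∀ (g : P') b, fs (g • b) = f g • fs b
  ow_smul : ∀ (g : P') b, ow (g • b) = ow b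

variable (Pa : Par) {P P' A Be I : Type} [Group P] [Group P'] [MulAction P A] [MulAction P' Be] (O : OwL P P' A Be I)

/-- the evaluation which forgets the own index -/
def OwL.ev : Sp Pa Be →* Sp Pa A := smap Pa O.fs

/-- the letters without own index -/
def OwL.inc : Sp Pa A →* Sp Pa Be := smap Pa fun a => O.pk a none

/-- all letters get the own index `i` -/
def OwL.inj (i : I) : Sp Pa A →* Sp Pa Be := smap Pa fun a => O.pk a (some i)

/-- kill the letters of own index not in `D` -/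
def OwL.kl (D : Finset I) : Sp Pa Be →* Sp Pa Be := kp Pa fun b => ∀ i, O.ow b = some i → i ∈ D

/-- kill the letters of own index `i` -/
def OwL.ki (i : I) : Sp Pa Be →* Sp Pa Be := kp Pa fun b => O.ow b ≠ some i

/-- kill the letters of own index in `U` -/
def OwL.kU (U : Finset I) : Sp Pa Be →* Sp Pa Be := kp Pa fun b => ∀ i, O.ow b = some i → i ∉ U

theorem OwL.ev_sy (b : Be) : O.ev Pa (sy Pa b) = sy Pa (O.fs b) := smap_sy Pa _ b

theorem OwL.inc_sy (a : A) : O.inc Pa (sy Pa a) = sy Pa (O.pk a none) := smap_sy Pa _ a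

theorem OwL.inj_sy (i : I) (a : A) : O.inj Pa i (sy Pa a) = sy Pa (O.pk a (some i)) := smap_sy Pa _ a

theorem OwL.kl_sy (D : Finset I) (b : Be) : O.kl Pa D (sy Pa b) = if ∀ i, O.ow b = some i → i ∈ D then sy Pa b else 1 := by
  unfold OwL.kl
  rw [kp_sy]
  split_ifs
  · rfl
  · rfl

theorem OwL.ki_sy (i : I) (b : Be) : O.ki Pa i (sy Pa b) = if O.ow b ≠ some i then sy Pa b else 1 := by
  unfold OwL.ki
  rw [kp_sy]
  split_ifs
  · rfl
  · rfl

theorem OwL.ev_inc (x : Sp Pa A) : O.ev Pa (O.inc Pa x) = x := by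
  unfold OwL.ev OwL.inc
  rw [smap_comp]
  have h1 : (fun a => O.fs (O.pk a none)) = fun a => a := funext fun a => O.fs_pk a none
  rw [h1, smap_id]

theorem OwL.ev_inj (i : I) (x : Sp Pa A) : O.ev Pa (O.inj Pa i x) = x := by
  unfold OwL.ev OwL.inj
  rw [smap_comp]
  have h1 : (fun a => O.fs (O.pk a (some i))) = fun a => a := funext fun a => O.fs_pk a (some i)
  rw [h1, smap_id]

theorem OwL.kl_inc (D : Finset I) (x : Sp Pa A) : O.kl Pa D (O.inc Pa x) = O.inc Pa x := by
  unfold OwL.kl OwL.inc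
  rw [kp_smap, kp_true]
  intro a i h
  rw [O.ow_pk] at h
  exact absurd h (Option.some_ne_none i).symm

theorem OwL.ki_inc (i : I) (x : Sp Pa A) : O.ki Pa i (O.inc Pa x) = O.inc Pa x := by
  unfold OwL.ki OwL.inc
  rw [kp_smap, kp_true]
  intro a h
  rw [O.ow_pk] at h
  exact absurd h (Option.some_ne_none i).symm

theorem OwL.ki_inj (i : I) (x : Sp Pa A) : O.ki Pa i (O.inj Pa i x) = 1 := by
  have h1 : (O.ki Pa i).comp (O.inj Pa i) = 1 := sp_hom_ext Pa _ _ fun a => by
    rw [MonoidHom.comp_apply, O.inj_sy, O.ki_sy, O.ow_pk, if_neg (not_not.2 rfl)]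
    rfl
  exact DFunLike.congr_fun h1 x

theorem OwL.ki_inj' {i j : I} (h : j ≠ i) (x : Sp Pa A) : O.ki Pa j (O.inj Pa i x) = O.inj Pa i x := by
  have h1 : (O.ki Pa j).comp (O.inj Pa i) = O.inj Pa i := sp_hom_ext Pa _ _ fun a => by
    rw [MonoidHom.comp_apply, O.inj_sy, O.ki_sy, O.ow_pk, if_pos fun hh => h (Option.some.inj hh).symm]
  exact DFunLike.congr_fun h1 x

theorem OwL.kl_kl (D D' : Finset I) (x : Sp Pa Be) : O.kl Pa D (O.kl Pa D' x) = O.kl Pa (D ∩ D') x := by
  unfold OwL.kl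
  rw [kp_kp]
  refine DFunLike.congr_fun (kp_congr Pa fun b => ?_) x
  constructor
  · rintro ⟨h1, h2⟩ i hi
    exact Finset.mem_inter.2 ⟨h1 i hi, h2 i hi⟩
  · intro h
    exact ⟨fun i hi => (Finset.mem_inter.1 (h i hi)).1, fun i hi => (Finset.mem_inter.1 (h i hi)).2⟩

theorem OwL.kl_ki (D : Finset I) {i : I} (hi : i ∉ D) (x : Sp Pa Be) : O.kl Pa D (O.ki Pa i x) = O.kl Pa D x := by
  unfold OwL.kl OwL.ki
  rw [kp_kp]
  refine DFunLike.congr_fun (kp_congr Pa fun b => ?_) x
  constructor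
  · exact fun h => h.1
  · exact fun h => ⟨h, fun hb => hi (h i hb)⟩

theorem OwL.kl_compl [Fintype I] (i : I) (x : Sp Pa Be) : O.kl Pa {i}ᶜ x = O.ki Pa i x := by
  unfold OwL.kl OwL.ki
  refine DFunLike.congr_fun (kp_congr Pa fun b => ?_) x
  constructor
  · intro h hb
    have := h i hb
    rw [Finset.mem_compl, Finset.mem_singleton] at this
    exact this rfl
  · intro h j hj
    rw [Finset.mem_compl, Finset.mem_singleton]
    rintro rfl
    exact h hj

theorem OwL.kl_univ [Fintype I] (x : Sp Pa Be) : O.kl Pa Finset.univ x = x :=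
  kp_true Pa (fun _ i _ => Finset.mem_univ i) x

theorem OwL.ki_ki (i : I) (x : Sp Pa Be) : O.ki Pa i (O.ki Pa i x) = O.ki Pa i x := by
  unfold OwL.ki
  rw [kp_kp, kp_congr Pa fun b => and_self_iff]

theorem OwL.ki_comm (i j : I) (x : Sp Pa Be) : O.ki Pa i (O.ki Pa j x) = O.ki Pa j (O.ki Pa i x) := kp_comm Pa _ _ x

theorem OwL.kl_empty (x : Sp Pa Be) : O.kl Pa ∅ x = O.inc Pa (O.ev Pa (O.kl Pa ∅ x)) := by
  have h1 : O.kl Pa ∅ = ((O.inc Pa).comp (O.ev Pa)).comp (O.kl Pa ∅) := sp_hom_ext Pa _ _ fun b => by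
    rw [MonoidHom.comp_apply, MonoidHom.comp_apply, O.kl_sy]
    by_cases h : ∀ i, O.ow b = some i → i ∈ (∅ : Finset I)
    · rw [if_pos h, O.ev_sy, O.inc_sy]
      have h2 : O.ow b = none := by
        rcases hb : O.ow b with _ | i
        · rfl
        · exact absurd (h i hb) (Finset.notMem_empty i)
      rw [← h2, O.pk_fs]
    · rw [if_neg h, map_one, map_one]
  exact DFunLike.congr_fun h1 x

theorem OwL.kl_smul (D : Finset I) (g : P') (x : Sp Pa Be) : O.kl Pa D (g • x) = g • O.kl Pa D x :=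
  kp_smul Pa (fun g b => by rw [O.ow_smul]) g x

theorem OwL.ki_smul (i : I) (g : P') (x : Sp Pa Be) : O.ki Pa i (g • x) = g • O.ki Pa i x :=
  kp_smul Pa (fun g b => by rw [O.ow_smul]) g x

theorem OwL.ev_smul (g : P') (x : Sp Pa Be) : O.ev Pa (g • x) = O.f g • O.ev Pa x := by
  rw [sp_smul, sp_smul]
  unfold OwL.ev
  rw [smap_comp, smap_comp]
  have h1 : (fun b => O.fs (g • b)) = fun b => O.f g • O.fs b := funext fun b => O.fs_smul g b
  rw [h1]

/-- `e : P →* P'` a section of `f` whose elements fix the own indices (automatic) -/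
theorem OwL.inc_smul {e : P →* P'} (he : ∀ g, O.f (e g) = g) (g : P) (x : Sp Pa A) : O.inc Pa (g • x) = e g • O.inc Pa x := by
  rw [sp_smul, sp_smul]
  unfold OwL.inc
  rw [smap_comp, smap_comp]
  have h1 : (fun a => O.pk (g • a) none) = fun a => e g • O.pk a none := funext fun a => by
    have h2 := O.pk_fs (e g • O.pk a none)
    rw [O.fs_smul, O.ow_smul, O.fs_pk, O.ow_pk, he] at h2
    exact h2
  rw [h1]

theorem OwL.inj_smul {e : P →* P'} (he : ∀ g, O.f (e g) = g) (i : I) (g : P) (x : Sp Pa A) :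
    O.inj Pa i (g • x) = e g • O.inj Pa i x := by
  rw [sp_smul, sp_smul]
  unfold OwL.inj
  rw [smap_comp, smap_comp]
  have h1 : (fun a => O.pk (g • a) (some i)) = fun a => e g • O.pk a (some i) := funext fun a => by
    have h2 := O.pk_fs (e g • O.pk a (some i))
    rw [O.fs_smul, O.ow_smul, O.fs_pk, O.ow_pk, he] at h2
    exact h2
  rw [h1]

/-- the elements which die when any own letter of index in `T` is killed -/
def OwL.Kk (T : Finset I) : Subgroup (Sp Pa Be) where
  carrier := {x | ∀ i ∈ T, O.ki Pa i x = 1}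
  one_mem' i _ := map_one _
  mul_mem' {x y} hx hy i hi := by rw [map_mul, hx i hi, hy i hi, one_mul]
  inv_mem' {x} hx i hi := by rw [map_inv, hx i hi, inv_one]

theorem OwL.mem_kk {T : Finset I} {x : Sp Pa Be} : x ∈ O.Kk Pa T ↔ ∀ i ∈ T, O.ki Pa i x = 1 := Iff.rfl

instance OwL.kk_normal (T : Finset I) : (O.Kk Pa T).Normal := ⟨fun x hx g i hi => by
  rw [map_mul, map_mul, hx i hi, mul_one, ← map_mul, mul_inv_cancel, map_one]⟩

theorem OwL.kk_mono {T T' : Finset I} (h : T ⊆ T') : O.Kk Pa T' ≤ O.Kk Pa T := fun _ hx i hi => hx i (h hi)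

theorem OwL.kk_inter {T T' : Finset I} {x : Sp Pa Be} (h : x ∈ O.Kk Pa T) (h' : x ∈ O.Kk Pa T') : x ∈ O.Kk Pa (T ∪ T') := by
  intro i hi
  rcases Finset.mem_union.1 hi with hi | hi
  · exact h i hi
  · exact h' i hi

/-- commutators -/
theorem OwL.kk_comm {T T' : Finset I} {x y : Sp Pa Be} (hx : x ∈ O.Kk Pa T) (hy : y ∈ O.Kk Pa T') : ⁅x, y⁆ ∈ O.Kk Pa (T ∪ T') := by
  refine O.kk_inter Pa ?_ ?_
  · have h1 : ⁅x, y⁆ = x * (y * x⁻¹ * y⁻¹) := by
      rw [commutatorElement_def]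
      group
    rw [h1]
    exact mul_mem hx ((O.kk_normal Pa T).conj_mem _ (inv_mem hx) y)
  · rw [commutatorElement_def]
    exact mul_mem ((O.kk_normal Pa T').conj_mem _ hy x) (inv_mem hy)

theorem OwL.kk_smul {T : Finset I} {x : Sp Pa Be} (g : P') (hx : x ∈ O.Kk Pa T) : g • x ∈ O.Kk Pa T := fun i hi => by
  rw [O.ki_smul, hx i hi, smul_one]

theorem OwL.kk_kl {T D : Finset I} {x : Sp Pa Be} (hx : x ∈ O.Kk Pa T) : O.kl Pa D x ∈ O.Kk Pa T := fun i hi => by
  have h1 : O.ki Pa i (O.kl Pa D x) = O.kl Pa D (O.ki Pa i x) := kp_comm Pa _ _ x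
  rw [h1, hx i hi, map_one]

/-- killed by `kl D` if `D` misses an element of `T` -/
theorem OwL.kk_die {T D : Finset I} {x : Sp Pa Be} (hx : x ∈ O.Kk Pa T) (h : ¬ T ⊆ D) : O.kl Pa D x = 1 := by
  obtain ⟨i, hi, hi'⟩ := Finset.not_subset.1 h
  rw [← O.kl_ki Pa D hi', hx i hi, map_one]

/-- two elements with the same killed values differ by an element of `Kk T` -/
theorem OwL.kk_of [Fintype I] {T : Finset I} {x y : Sp Pa Be} (h : ∀ D : Finset I, ¬ T ⊆ D → O.kl Pa D x = O.kl Pa D y) :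
    x * y⁻¹ ∈ O.Kk Pa T := fun i hi => by
  have h1 := h {i}ᶜ fun hh => by
    have := hh hi
    rw [Finset.mem_compl, Finset.mem_singleton] at this
    exact this rfl
  rw [O.kl_compl, O.kl_compl] at h1
  rw [map_mul, map_inv, h1, mul_inv_cancel]

theorem OwL.inj_kk (i : I) (x : Sp Pa A) : O.inj Pa i x ∈ O.Kk Pa {i} := fun j hj => by
  rw [Finset.mem_singleton.1 hj, O.ki_inj]

theorem OwL.sy_kk (i : I) (a : A) : sy Pa (O.pk a (some i)) ∈ O.Kk Pa {i} := by
  rw [← O.inj_sy]
  exact O.inj_kk Pa i _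

/-- the leading part of an element of `Kk T`: words which contain all own indices in `T` -/
theorem OwL.dg_kk {T : Finset I} {n : ℕ} (hn : n + 1 ≤ Pa.c) {x : Sp Pa Be} (hx : x ∈ O.Kk Pa T) {w : List Be}
    (hw : dg Pa n x w ≠ 0) : ∀ i ∈ T, ∃ b ∈ w, O.ow b = some i := by
  intro i hi
  by_contra h
  push Not at h
  have h1 := dg_kp Pa (fun b => O.ow b ≠ some i) hn x
  have h2 : kp Pa (fun b => O.ow b ≠ some i) x = 1 := hx i hi
  rw [h2, dg_one Pa hn] at h1
  have h3 := congrFun h1 w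
  rw [rsp_apply, if_pos h] at h3
  exact hw h3.symm

theorem OwL.kk_le (T : Finset I) : O.Kk Pa T ≤ gm (Sp Pa Be) T.card := by
  have h1 : ∀ n, n + 1 ≤ T.card → O.Kk Pa T ≤ gam (Sp Pa Be) n := by
    intro n
    induction n with
    | zero => exact fun _ x _ => mem0 x
    | succ n ih =>
      intro hn x hx
      have h2 := ih (by omega) hx
      by_cases hc : n + 1 ≤ Pa.c
      · refine (dg_eq_zero Pa hc h2).1 (funext fun w => ?_)
        by_contra hw
        have h3 : dg Pa n x w ≠ 0 := hw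
        have h4 := dg_length Pa hc x w h3
        have h5 := O.dg_kk Pa hc hx h3
        have h6 : T ⊆ (w.filterMap O.ow).toFinset := by
          intro i hi
          obtain ⟨b, hb, hb'⟩ := h5 i hi
          rw [List.mem_toFinset, List.mem_filterMap]
          exact ⟨b, hb, hb'⟩
        have h7 := Finset.card_le_card h6
        have h8 := List.toFinset_card_le (w.filterMap O.ow)
        have h9 := List.length_filterMap_le O.ow w
        omega
      · have h3 : gam (Sp Pa Be) n ≤ gam (Sp Pa Be) Pa.c := gam_anti (by omega)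
        have h4 := h3 h2
        rw [gam_c, Subgroup.mem_bot] at h4
        rw [h4]
        exact one_mem _
  rcases Nat.eq_zero_or_pos T.card with h | h
  · rw [h]
    exact fun x _ => Subgroup.mem_top x
  · exact h1 (T.card - 1) (by omega)

/-- `ev` is onto -/
theorem OwL.ev_kk {T : Finset I} {n : ℕ} (hT : T.card ≤ n) {u : Sp Pa A} (hu : u ∈ gm (Sp Pa A) n) :
    ∃ m ∈ O.Kk Pa T, m ∈ gm (Sp Pa Be) n ∧ O.ev Pa m = u := by
  have h1 : ∀ n, ∀ T : Finset I, T.card ≤ n + 1 → ∀ u ∈ gam (Sp Pa A) n, ∃ m ∈ O.Kk Pa T, m ∈ gam (Sp Pa Be) n ∧ O.ev Pa m = u := by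
    intro n
    induction n with
    | zero =>
      intro T hT u _
      rcases T.eq_empty_or_nonempty with rfl | ⟨i, hi⟩
      · exact ⟨O.inc Pa u, fun i hi => absurd hi (Finset.notMem_empty i), mem0 _, O.ev_inc Pa u⟩
      · refine ⟨O.inj Pa i u, fun j hj => ?_, mem0 _, O.ev_inj Pa i u⟩
        rw [Finset.card_le_one.1 hT j hj i hi]
        exact O.ki_inj Pa i u
    | succ n ih =>
      intro T hT u hu
      have h2 : gam (Sp Pa A) (n + 1) ≤ (O.Kk Pa T ⊓ gam (Sp Pa Be) (n + 1)).map (O.ev Pa) := by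
        have h3 : gam (Sp Pa A) (n + 1) = ⁅gam (Sp Pa A) n, ⊤⁆ := rfl
        rw [h3, Subgroup.commutator_le]
        intro y hy x _
        rcases T.eq_empty_or_nonempty with rfl | ⟨i, hi⟩
        · obtain ⟨m, hm, hm', rfl⟩ := ih ∅ (by simp) y hy
          refine ⟨⁅m, O.inc Pa x⁆, ⟨fun i hi => absurd hi (Finset.notMem_empty i), ?_⟩, ?_⟩
          · exact Subgroup.commutator_mem_commutator hm' (Subgroup.mem_top _)
          · rw [map_commutatorElement, O.ev_inc]
        · obtain ⟨m, hm, hm', rfl⟩ := ih (T.erase i) (by rw [Finset.card_erase_of_mem hi]; omega) y hy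
          refine ⟨⁅m, O.inj Pa i x⁆, ⟨?_, ?_⟩, ?_⟩
          · have h4 := O.kk_comm Pa hm (O.inj_kk Pa i x)
            refine O.kk_mono Pa ?_ h4
            intro j hj
            rw [Finset.mem_union, Finset.mem_erase, Finset.mem_singleton]
            by_cases h5 : j = i
            · exact Or.inr h5
            · exact Or.inl ⟨h5, hj⟩
          · exact Subgroup.commutator_mem_commutator hm' (Subgroup.mem_top _)
          · rw [map_commutatorElement, O.ev_inj]
      obtain ⟨m, ⟨hm, hm'⟩, h⟩ := h2 hu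
      exact ⟨m, hm, hm', h⟩
  rcases Nat.eq_zero_or_pos n with h | h
  · subst h
    rw [Finset.card_eq_zero.1 (Nat.le_zero.1 hT)]
    exact ⟨O.inc Pa u, fun i hi => absurd hi (Finset.notMem_empty i), Subgroup.mem_top _, O.ev_inc Pa u⟩
  · obtain ⟨k, rfl⟩ : ∃ k, n = k + 1 := ⟨n - 1, by omega⟩
    exact h1 k T hT u hu

end own

section lay

theorem gm_hom {S S' : Type} [Group S] [Group S'] (f : S →* S') {m : ℕ} {u : S} (hu : u ∈ gm S m) : f u ∈ gm S' m :=
  gam_map f (m - 1) hu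

/-- the map of the layers -/
theorem grm_ex {S S' : Type} [Group S] [Group S'] (f : S →* S') (m : ℕ) :
    ∃ F : Gr S m →+ Gr S' m, ∀ u ∈ gm S m, F (gk m u) = gk m (f u) := by
  refine gr_lift m (fun u => gk m (f u)) (fun u hu v hv => ?_) fun u hu => ?_
  · rw [map_mul, gk_mul (gm_hom f hu) (gm_hom f hv)]
  · exact (gk_zero (gm_anti m (gm_hom f hu))).2 (gm_hom f hu)

/-- the map of the layers -/
def grm {S S' : Type} [Group S] [Group S'] (f : S →* S') (m : ℕ) : Gr S m →+ Gr S' m := (grm_ex f m).choose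

theorem grm_gk {S S' : Type} [Group S] [Group S'] (f : S →* S') {m : ℕ} {u : S} (hu : u ∈ gm S m) :
    grm f m (gk m u) = gk m (f u) := (grm_ex f m).choose_spec u hu

variable (Pa : Par) {P P' A Be I : Type} [Group P] [Group P'] [MulAction P A] [MulAction P' Be] (O : OwL P P' A Be I)

/-- the projection of the layers to the classes of `Kk T` -/
def OwL.pj (T : Finset I) (n : ℕ) : Gr (Sp Pa Be) n →+ Gr (Sp Pa Be) n :=
  ∑ U ∈ T.powerset, (-1 : ℤ) ^ U.card • grm (O.kU Pa U) n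

theorem OwL.pj_kk {T : Finset I} {n : ℕ} {u : Sp Pa Be} (hu : u ∈ O.Kk Pa T) (hn : u ∈ gm (Sp Pa Be) n) :
    O.pj Pa T n (gk n u) = gk n u := by
  unfold OwL.pj
  rw [AddMonoidHom.finsetSum_apply, Finset.sum_eq_single ∅]
  · rw [Finset.card_empty, pow_zero, one_smul, grm_gk _ hn]
    have h1 : O.kU Pa ∅ u = u := kp_true Pa (fun _ i _ => Finset.notMem_empty i) u
    rw [h1]
  · intro U hU hne
    obtain ⟨i, hi⟩ := Finset.nonempty_iff_ne_empty.2 hne
    have h1 : O.kU Pa U u = 1 := by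
      have h2 : O.kU Pa U (O.ki Pa i u) = O.kU Pa U u := by
        unfold OwL.kU OwL.ki
        rw [kp_kp]
        refine DFunLike.congr_fun (kp_congr Pa fun b => ?_) u
        exact ⟨fun h => h.1, fun h => ⟨h, fun hb => h i hb hi⟩⟩
      rw [← h2, hu i (Finset.mem_powerset.1 hU hi), map_one]
    have h3 : ((-1 : ℤ) ^ U.card • grm (O.kU Pa U) n) (gk n u) = (-1 : ℤ) ^ U.card • grm (O.kU Pa U) n (gk n u) := rfl
    rw [h3, grm_gk _ hn, h1, gk_one, smul_zero]
  · exact fun h => absurd (Finset.empty_mem_powerset T) h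

theorem OwL.kU_insert (i : I) (U : Finset I) (x : Sp Pa Be) : O.kU Pa (insert i U) x = O.kU Pa U (O.ki Pa i x) := by
  unfold OwL.kU OwL.ki
  rw [kp_kp]
  refine DFunLike.congr_fun (kp_congr Pa fun b => ?_) x
  constructor
  · intro h
    exact ⟨fun j hj hU => h j hj (Finset.mem_insert_of_mem hU), fun hb => h i hb (Finset.mem_insert_self i U)⟩
  · rintro ⟨h1, h2⟩ j hj hU
    rcases Finset.mem_insert.1 hU with rfl | hU
    · exact h2 hj
    · exact h1 j hj hU

theorem OwL.pj_insert {i : I} {T : Finset I} (hi : i ∉ T) (n : ℕ) (z : Gr (Sp Pa Be) n) :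
    O.pj Pa (insert i T) n z = O.pj Pa T n z - O.pj Pa T n (grm (O.ki Pa i) n z) := by
  unfold OwL.pj
  rw [Finset.sum_powerset_insert hi, AddMonoidHom.add_apply, sub_eq_add_neg]
  congr 1
  rw [AddMonoidHom.finsetSum_apply, AddMonoidHom.finsetSum_apply, ← Finset.sum_neg_distrib]
  refine Finset.sum_congr rfl fun U hU => ?_
  have hiU : i ∉ U := fun h => hi (Finset.mem_powerset.1 hU h)
  obtain ⟨u, hu, rfl⟩ := gk_surj n z
  change (-1 : ℤ) ^ (insert i U).card • grm (O.kU Pa (insert i U)) n (gk n u) = - ((-1 : ℤ) ^ U.card • grm (O.kU Pa U) n (grm (O.ki Pa i) n (gk n u)))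
  rw [grm_gk _ hu, grm_gk _ hu, grm_gk _ (gm_hom _ hu), Finset.card_insert_of_notMem hiU, pow_succ, mul_neg_one, neg_smul,
    O.kU_insert]

theorem OwL.ki_kU (i : I) (U : Finset I) (x : Sp Pa Be) : O.ki Pa i (O.kU Pa U x) = O.kU Pa U (O.ki Pa i x) := kp_comm Pa _ _ x

theorem OwL.pj_comm (T : Finset I) (i : I) (n : ℕ) (z : Gr (Sp Pa Be) n) :
    O.pj Pa T n (grm (O.ki Pa i) n z) = grm (O.ki Pa i) n (O.pj Pa T n z) := by
  unfold OwL.pj
  rw [AddMonoidHom.finsetSum_apply, AddMonoidHom.finsetSum_apply, map_sum]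
  refine Finset.sum_congr rfl fun U _ => ?_
  obtain ⟨u, hu, rfl⟩ := gk_surj n z
  change (-1 : ℤ) ^ U.card • grm (O.kU Pa U) n (grm (O.ki Pa i) n (gk n u)) = grm (O.ki Pa i) n ((-1 : ℤ) ^ U.card • grm (O.kU Pa U) n (gk n u))
  rw [map_zsmul, grm_gk _ hu, grm_gk _ hu, grm_gk _ (gm_hom _ hu), grm_gk _ (gm_hom _ hu), O.ki_kU]

theorem OwL.pj_ex (T : Finset I) (n : ℕ) {u : Sp Pa Be} (hn : u ∈ gm (Sp Pa Be) n) :
    ∃ u' ∈ O.Kk Pa T, u' ∈ gm (Sp Pa Be) n ∧ gk n u' = O.pj Pa T n (gk n u) := by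
  induction T using Finset.induction_on with
  | empty => exact ⟨u, fun i hi => absurd hi (Finset.notMem_empty i), hn, (O.pj_kk Pa (fun i hi => absurd hi (Finset.notMem_empty i)) hn).symm⟩
  | insert i T hi ih =>
    obtain ⟨v, hv, hvn, hv'⟩ := ih
    refine ⟨v * (O.ki Pa i v)⁻¹, ?_, mul_mem hvn (inv_mem (gm_hom _ hvn)), ?_⟩
    · intro j hj
      rcases Finset.mem_insert.1 hj with rfl | hj
      · rw [map_mul, map_inv, O.ki_ki, mul_inv_cancel]
      · rw [map_mul, map_inv, O.ki_comm, hv j hj, map_one, inv_one, mul_one]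
    · rw [gk_mul hvn (inv_mem (gm_hom _ hvn)), gk_inv (gm_hom _ hvn), O.pj_insert Pa hi, O.pj_comm, ← hv', grm_gk _ hvn, sub_eq_add_neg]

theorem OwL.pj_smul (T : Finset I) (n : ℕ) (g : P') (z : Gr (Sp Pa Be) n) : O.pj Pa T n (g • z) = g • O.pj Pa T n z := by
  unfold OwL.pj
  rw [AddMonoidHom.finsetSum_apply, AddMonoidHom.finsetSum_apply, Finset.smul_sum]
  refine Finset.sum_congr rfl fun U _ => ?_
  obtain ⟨u, hu, rfl⟩ := gk_surj n z
  change (-1 : ℤ) ^ U.card • grm (O.kU Pa U) n (g • gk n u) = g • ((-1 : ℤ) ^ U.card • grm (O.kU Pa U) n (gk n u))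
  have h1 : O.kU Pa U (g • u) = g • O.kU Pa U u := kp_smul Pa (fun g b => by rw [O.ow_smul]) g u
  have h2 : g • ((-1 : ℤ) ^ U.card • grm (O.kU Pa U) n (gk n u)) = (-1 : ℤ) ^ U.card • g • grm (O.kU Pa U) n (gk n u) :=
    map_zsmul (DistribSMul.toAddMonoidHom (Gr (Sp Pa Be) n) g) _ _
  rw [h2, smul_gk g hu, grm_gk _ (gm_smul g hu), grm_gk _ hu, h1, smul_gk g (gm_hom _ hu)]

theorem OwL.pj_ki (T : Finset I) {i : I} (hi : i ∈ T) (n : ℕ) (z : Gr (Sp Pa Be) n) : O.pj Pa T n (grm (O.ki Pa i) n z) = 0 := by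
  obtain ⟨u, hu, rfl⟩ := gk_surj n z
  obtain ⟨u', hu', hn', h⟩ := O.pj_ex Pa T n hu
  rw [O.pj_comm, ← h, grm_gk _ hn', hu' i hi, gk_one]

/-- extension of functionals from `Kk T` to the layer -/
theorem OwL.ext_kk {B : Type} [AddCommGroup B] (T : Finset I) (n : ℕ) (f : Sp Pa Be → B)
    (hf : ∀ u ∈ O.Kk Pa T, u ∈ gm (Sp Pa Be) n → ∀ v ∈ O.Kk Pa T, v ∈ gm (Sp Pa Be) n → f (u * v) = f u + f v)
    (h0 : ∀ u ∈ O.Kk Pa T, u ∈ gm (Sp Pa Be) (n + 1) → f u = 0) :
    ∃ F : Gr (Sp Pa Be) n →+ B, (∀ z, F z = F (O.pj Pa T n z)) ∧ ∀ u ∈ O.Kk Pa T, u ∈ gm (Sp Pa Be) n → F (gk n u) = f u := by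
  have key : ∀ u ∈ O.Kk Pa T, u ∈ gm (Sp Pa Be) n → ∀ v ∈ O.Kk Pa T, v ∈ gm (Sp Pa Be) n → gk n u = gk n v → f u = f v := by
    intro u hu hun v hv hvn h
    have h1 : u⁻¹ * v ∈ gm (Sp Pa Be) (n + 1) := by
      rw [← gk_zero (mul_mem (inv_mem hun) hvn), gk_mul (inv_mem hun) hvn, gk_inv hun, h, neg_add_cancel]
    have h2 := h0 _ (mul_mem (inv_mem hu) hv) h1
    have h3 := hf u hu hun (u⁻¹ * v) (mul_mem (inv_mem hu) hv) (mul_mem (inv_mem hun) hvn)
    rw [mul_inv_cancel_left, h2, add_zero] at h3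
    exact h3.symm
  have h1 : ∀ z : Gr (Sp Pa Be) n, ∃ u ∈ O.Kk Pa T, u ∈ gm (Sp Pa Be) n ∧ gk n u = O.pj Pa T n z := by
    intro z
    obtain ⟨u, hu, rfl⟩ := gk_surj n z
    exact O.pj_ex Pa T n hu
  choose U hU hUn hU' using h1
  refine ⟨AddMonoidHom.mk' (fun z => f (U z)) fun z w => ?_, fun z => ?_, fun u hu hun => ?_⟩
  · rw [← hf _ (hU z) (hUn z) _ (hU w) (hUn w)]
    refine key _ (hU _) (hUn _) _ (mul_mem (hU z) (hU w)) (mul_mem (hUn z) (hUn w)) ?_
    rw [gk_mul (hUn z) (hUn w), hU', hU', hU', map_add]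
  · change f (U z) = f (U (O.pj Pa T n z))
    refine key _ (hU _) (hUn _) _ (hU _) (hUn _) ?_
    rw [hU', hU']
    have h2 := O.pj_kk Pa (hU z) (hUn z)
    rw [hU' z] at h2
    exact h2.symm
  · change f (U (gk n u)) = f u
    refine key _ (hU _) (hUn _) _ hu hun ?_
    rw [hU', O.pj_kk Pa hu hun]

end lay

section sem

variable {P P' S S' : Type} [Group P] [Group P'] [Group S] [Group S'] [MulDistribMulAction P S] [MulDistribMulAction P' S']

/-- the extension of an equivariant homomorphism -/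
def spm (f : S →* S') (e : P →* P') (h : ∀ (g : P) s, f (g • s) = e g • f s) : SP S P →* SP S' P' :=
  SemidirectProduct.map f e fun g => MonoidHom.ext fun s => h g s

theorem spm_left (f : S →* S') (e : P →* P') (h : ∀ (g : P) s, f (g • s) = e g • f s) (x : SP S P) : (spm f e h x).left = f x.left := rfl

theorem spm_right (f : S →* S') (e : P →* P') (h : ∀ (g : P) s, f (g • s) = e g • f s) (x : SP S P) : (spm f e h x).right = e x.right := rfl

theorem spm_il (f : S →* S') (e : P →* P') (h : ∀ (g : P) s, f (g • s) = e g • f s) (u : S) : spm f e h (il u : SP S P) = il (f u) :=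
  SemidirectProduct.map_inl _ _ _ u

end sem

section ext

/-- `ZMod q` is injective over itself -/
theorem baer_zmod {q : ℕ} [NeZero q] : Module.Baer (ZMod q) (ZMod q) := by
  intro J g
  have hp : IsPrincipalIdealRing (ZMod q) := IsPrincipalIdealRing.of_surjective (Int.castRingHom (ZMod q)) ZMod.intCast_surjective
  obtain ⟨a, ha⟩ := (hp.principal J).principal
  obtain ⟨a, rfl⟩ := ZMod.intCast_surjective a
  -- the generator `d = gcd (a, q)`
  set d : ℤ := gcd a q with hd
  have hdq : d ∣ q := gcd_dvd_right a q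
  have hda : d ∣ a := gcd_dvd_left a q
  obtain ⟨e, he⟩ := hdq
  have hdJ : ((d : ℤ) : ZMod q) ∈ J := by
    obtain ⟨x, y, hxy⟩ := exists_gcd_eq_mul_add_mul a (q : ℤ)
    have h1 : ((d : ℤ) : ZMod q) = ((a : ℤ) : ZMod q) * ((x : ℤ) : ZMod q) := by
      rw [hd, hxy]
      push_cast
      rw [ZMod.natCast_self, zero_mul, add_zero]
    rw [h1]
    refine J.mul_mem_right _ ?_
    rw [ha]
    exact Submodule.mem_span_singleton_self _
  obtain ⟨r, hr⟩ := ZMod.intCast_surjective (g ⟨_, hdJ⟩)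
  have h2 : ((e * r : ℤ) : ZMod q) = 0 := by
    push_cast
    rw [hr, ← smul_eq_mul, ← map_smul]
    have h3 : ((e : ℤ) : ZMod q) • (⟨((d : ℤ) : ZMod q), hdJ⟩ : J) = 0 := by
      refine Subtype.ext ?_
      change ((e : ℤ) : ZMod q) * ((d : ℤ) : ZMod q) = 0
      rw [mul_comm, ← Int.cast_mul, ← he, Int.cast_natCast, ZMod.natCast_self]
    rw [h3, map_zero]
  rw [ZMod.intCast_zmod_eq_zero_iff_dvd, he] at h2
  have hq0 : (q : ℤ) ≠ 0 := Int.natCast_ne_zero.2 (NeZero.ne q)
  have he0 : e ≠ 0 := by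
    rintro rfl
    rw [mul_zero] at he
    exact hq0 he
  obtain ⟨s, hs⟩ : d ∣ r := by
    obtain ⟨t, ht⟩ := h2
    refine ⟨t, mul_left_cancel₀ he0 ?_⟩
    rw [ht]
    ring
  refine ⟨LinearMap.toSpanSingleton (ZMod q) (ZMod q) ((s : ℤ) : ZMod q), fun x hx => ?_⟩
  rw [LinearMap.toSpanSingleton_apply, smul_eq_mul]
  obtain ⟨c, hc⟩ : ∃ c : ZMod q, x = c * ((d : ℤ) : ZMod q) := by
    rw [ha, Submodule.mem_span_singleton] at hx
    obtain ⟨c, hc⟩ := hx
    obtain ⟨a', ha'⟩ := hda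
    refine ⟨c * ((a' : ℤ) : ZMod q), ?_⟩
    rw [← hc, ha', smul_eq_mul]
    push_cast
    ring
  have h3 : (⟨x, hx⟩ : J) = c • ⟨((d : ℤ) : ZMod q), hdJ⟩ := Subtype.ext hc
  rw [h3, map_smul, ← hr, hs, smul_eq_mul, hc]
  push_cast
  ring

/-- extension of a homomorphism with values in `ZMod q` -/
theorem ext_zmod {q : ℕ} [NeZero q] {B : Type} [AddCommGroup B] (hq : ∀ b : B, q • b = 0) (H : AddSubgroup B) (φ : H →+ ZMod q) :
    ∃ Φ : B →+ ZMod q, ∀ h : H, Φ h = φ h := by
  let _ : Module (ZMod q) B := AddCommGroup.zmodModule hq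
  have hH : ∀ b : H, q • b = 0 := fun b => Subtype.ext (hq b)
  let _ : Module (ZMod q) H := AddCommGroup.zmodModule hH
  obtain ⟨Φ, hΦ⟩ := baer_zmod.extension_property (H.subtype.toZModLinearMap q) Subtype.val_injective (φ.toZModLinearMap q)
  exact ⟨Φ.toAddMonoidHom, fun h => LinearMap.congr_fun hΦ h⟩

/-- extension from a subgroup `H` to a subgroup `K` which is abelian of exponent `q` modulo `L` -/
theorem ext_psi {q : ℕ} [NeZero q] {S : Type} [Group S] (K H L : Subgroup S) [L.Normal] (hHK : H ≤ K)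
    (hcom : ∀ u ∈ K, ∀ v ∈ K, ⁅u, v⁆ ∈ L) (hpow : ∀ u ∈ K, u ^ q ∈ L) (ψ : S → ZMod q)
    (h1 : ∀ u ∈ H, ∀ v ∈ H, ψ (u * v) = ψ u + ψ v) (h0 : ∀ u ∈ H, u ∈ L → ψ u = 0) :
    ∃ Ψ : S → ZMod q, (∀ u ∈ K, ∀ v ∈ K, Ψ (u * v) = Ψ u + Ψ v) ∧ (∀ u ∈ K, u ∈ L → Ψ u = 0) ∧ ∀ u ∈ H, Ψ u = ψ u := by
  let N : Subgroup K := L.subgroupOf K
  have hN : N.Normal := inferInstanceAs (L.subgroupOf K).Normal
  let B : Type := Additive (K ⧸ N)
  let iB : AddGroup B := inferInstanceAs (AddGroup (Additive (K ⧸ N)))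
  let iC : AddCommGroup B := { iB with
    add_comm := by
      intro a b
      induction a using QuotientGroup.induction_on with
      | _ a =>
        induction b using QuotientGroup.induction_on with
        | _ b =>
          refine (QuotientGroup.eq (s := N)).2 ?_
          rw [Subgroup.mem_subgroupOf]
          have h := hcom _ (K.inv_mem b.2) _ (K.inv_mem a.2)
          have h2 : (((a * b)⁻¹ * (b * a) : K) : S) = ⁅(b : S)⁻¹, (a : S)⁻¹⁆ := by
            simp only [Subgroup.coe_mul, Subgroup.coe_inv, commutatorElement_def]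
            group
          rw [h2]
          exact h }
  let mk : K → B := fun u => Additive.ofMul (QuotientGroup.mk u : K ⧸ N)
  have mk_mul : ∀ u v, mk (u * v) = mk u + mk v := fun _ _ => rfl
  have mk_zero : ∀ u : K, mk u = 0 ↔ (u : S) ∈ L := fun u =>
    (QuotientGroup.eq_one_iff (N := N) u).trans Subgroup.mem_subgroupOf
  have mk_surj : ∀ b : B, ∃ u : K, mk u = b := fun b => QuotientGroup.mk_surjective b
  have hq : ∀ b : B, q • b = 0 := by
    intro b
    obtain ⟨u, rfl⟩ := mk_surj b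
    have h1 : q • mk u = mk (u ^ q) := rfl
    rw [h1, mk_zero]
    exact hpow _ u.2
  -- the subgroup
  let H' : AddSubgroup B :=
    { carrier := {b | ∃ u : K, (u : S) ∈ H ∧ mk u = b}
      zero_mem' := ⟨1, H.one_mem, rfl⟩
      add_mem' := by
        rintro _ _ ⟨u, hu, rfl⟩ ⟨v, hv, rfl⟩
        exact ⟨u * v, H.mul_mem hu hv, rfl⟩
      neg_mem' := by
        rintro _ ⟨u, hu, rfl⟩
        exact ⟨u⁻¹, H.inv_mem hu, rfl⟩ }
  have hψ1 : ψ 1 = 0 := by
    have := h1 1 H.one_mem 1 H.one_mem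
    rw [mul_one] at this
    exact left_eq_add.1 this
  have hwd : ∀ u v : K, (u : S) ∈ H → (v : S) ∈ H → mk u = mk v → ψ u = ψ v := by
    intro u v hu hv h
    have h2 : mk (u⁻¹ * v) = 0 := by
      have h3 : mk (u⁻¹ * v) = -mk u + mk v := rfl
      rw [h3, h, neg_add_cancel]
    rw [mk_zero] at h2
    have h2' : (u : S)⁻¹ * v ∈ L := h2
    have h4 := h1 (u : S) hu ((u : S)⁻¹ * v) (H.mul_mem (H.inv_mem hu) hv)
    rw [h0 _ (H.mul_mem (H.inv_mem hu) hv) h2', add_zero, mul_inv_cancel_left] at h4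
    exact h4.symm
  have hex : ∀ b : H', ∃ u : K, (u : S) ∈ H ∧ mk u = b := fun b => b.2
  choose U hU hU' using hex
  let φ : H' →+ ZMod q := AddMonoidHom.mk' (fun b => ψ (U b)) fun a b => by
    rw [← h1 _ (hU a) _ (hU b)]
    refine hwd (U (a + b)) (U a * U b) (hU _) (H.mul_mem (hU a) (hU b)) ?_
    rw [mk_mul, hU', hU', hU']
    rfl
  obtain ⟨Φ, hΦ⟩ := ext_zmod hq H' φ
  refine ⟨fun u => if h : u ∈ K then Φ (mk ⟨u, h⟩) else 0, fun u hu v hv => ?_, fun u hu hL => ?_, fun u hu => ?_⟩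
  · beta_reduce
    rw [dif_pos hu, dif_pos hv, dif_pos (K.mul_mem hu hv), ← map_add, ← mk_mul]
    rfl
  · beta_reduce
    rw [dif_pos hu, (mk_zero ⟨u, hu⟩).2 hL, map_zero]
  · beta_reduce
    rw [dif_pos (hHK hu)]
    refine (hΦ ⟨mk ⟨u, hHK hu⟩, ⟨⟨u, hHK hu⟩, hu, rfl⟩⟩).trans ?_
    exact hwd _ ⟨u, hHK hu⟩ (hU _) hu (hU' _)

end ext

end H12.OW
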