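import Pool.Agent.H12.OW.Cel
import Pool.Agent.H48.OW.Hy

/-!
# [H12 OW MEM] MP_b39724_nt, theorem OW, S4 (c8): the values of the words in a class

* `cls_mem`: if the tuples `v₀`, `v` are in the same class (`Cel` of H48/OW/Cls), then the value at `v` is `il g` times the value at the representative `v₀`, `g ∈ Kj v j`.
* `psio_pso`: `Pso` from `PsiO` of H97/OW/Def. `own_q`: `Own` for `Yq`.
* `heta_q`, `pt_q`: the hypotheses on the family `η` in `cel_fq` (H70/OW/Cfq) and `fzq` (H62/OW/Fzq), for the family at the representatives `x0`.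
-/

set_option autoImplicit false

open scoped NumberField commutatorElement
open IsDedekindDomain
open scoped Classical

noncomputable section

namespace H12.OW

open H63.MA H38.BB H38.BG H57.PC H57.BRA H77.WD H77.WE H77.PC3 H35.CF H35.UB H77.S3 H71.S3 H1.S3
  H73.S3 H73.OW H82.S3 H48.OW H88.OW

attribute [local instance 50] Fintype.ofFinite

/-- from the structure of H97/OW/Def -/
theorem psio_pso {Pa : Par} {P P' A Be : Type} [Group P] [Group P'] [MulAction P A] [MulAction P' Be] {q d : ℕ}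
    {O : OwL P P' A Be (Fin (d + 1))} {Bf : ∀ i j : ℕ, Gr (Sp Pa A) i →+ Gr (Sp Pa A) j →+ ZMod q} {psi : Sp Pa Be → ZMod q}
    {R : Subgroup P} {kap : P → Du (Sp Pa A) q (d + 1 + 1)} (h : H97.OW.PsiO O Pa Bf psi R kap) : Pso O d R psi kap Bf where
  pk := ⟨fun g u hu => kk_cjl g hu, h.add, by
    have h4 := O.kk_le Pa Finset.univ
    rw [Finset.card_univ, Fintype.card_fin] at h4
    exact h4, h.bot⟩
  br i j hi hj hij T T' hT u hu hui v hv hvj := h.com i j hi hj hij T T' (un_inst _ _ T T' hT) u hu hui v hv hvj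
  ka g hg u hu hn := (h.eqv g hg u hu hn).symm

variable {K : Type} [Field K] [NumberField K] {Ω : Type} [Field Ω] [Algebra K Ω]
  {p N : ℕ} {ζ : K} {D : RD0 K p ζ} {Q : DP K Ω} {A : GS D Ω} {P : Type} [Group P] {hp : p.Prime}
  {c : CL p N P} {Pa : Par} {q d : ℕ}

/-- (c8) -/
theorem cls_mem (hd : 1 ≤ d) {G' : SG (cO hp c (d + 1)) (So hp c (d + 1) Pa)} {B : SD D Q A} {X : FD A P (Sp Pa (Px c))} {W : WF A}
    {T : ℝ} {Zc : Finset (Pl K)} {τ₀ : Pl K → Sp Pa (Px c)} {b : Pl K → Option (Elb2 c (Sp Pa (Px c)) q d)}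
    {l : Fin (d + 1) → Elb2 c (Sp Pa (Px c)) q d} {v₀ v : Fin (d + 1) → Pl K} (h : Cel G' B X W T Zc τ₀ b l v₀ v) :
    ∀ j ∈ (Yq G' B X W T Zc (up b v l) v).Jf, ∃ g ∈ Kj hp c Pa B v j,
      xq G' B X W T Zc τ₀ (up b v l) v j = il g * x0q G' B X W T Zc τ₀ b l v₀ v j := by
  intro j hj
  have hall : ∀ w (j' : Pl K ⊕ Fin A.g), j' ∈ (sp Zc b ∪ X.E).disjSum (Finset.univ : Finset (Fin A.g)) →
      ∃ g ∈ (owl hp c (d + 1)).Kk Pa (Tv (H93.OW.ixv v) w), xq G' B X W T Zc τ₀ (up b v l) v j' =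
        il g * xq G' B X W T Zc τ₀ (up b v₀ l) v₀ j' := fun w j' hj' =>
    (cel_iff (by omega) (H93.OW.ixv v) w _ _).1 fun k _ => (h.fx j' hj' k).symm
  rcases j with w | i
  · show ∃ g ∈ (owl hp c (d + 1)).Kk Pa (Tv (H93.OW.ixv v) w), xq G' B X W T Zc τ₀ (up b v l) v (Sum.inl w) =
      il g * (H93.OW.ixv v w).elim (xq G' B X W T Zc τ₀ (up b v₀ l) v₀ (Sum.inl w))
        fun k => xq G' B X W T Zc τ₀ (up b v₀ l) v₀ (Sum.inl (v₀ k))
    rcases hw : H93.OW.ixv v w with _ | k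
    · refine hall w _ ?_
      have hj' : Sum.inl w ∈ (sp Zc (gq hp (up b v l) v) ∪ X.E).disjSum (Finset.univ : Finset (Fin A.g)) := hj
      rw [Finset.inl_mem_disjSum, Finset.mem_union] at hj' ⊢
      refine hj'.imp_left fun h1 => ?_
      rw [mem_sp] at h1 ⊢
      refine ⟨h1.1, fun h2 => h1.2 ?_⟩
      have h3 : up b v l w = none := (up_ne b v l w (H93.OW.ixv_none hw)).trans h2
      have h4 : lf2 (up b v l) w = none := by
        unfold lf2
        rw [h3]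
        rfl
      exact H93.OW.rc_none.2 h4
    · have h1 := H93.OW.ixv_some hw
      subst h1
      exact (cel_iff (by omega) (H93.OW.ixv v) (v k) _ _).1 fun i hi => (h.vr k i (fun e => hi (by rw [hw, e]))).symm
  · exact hall (B.pl i) _ (by
      rw [Finset.inr_mem_disjSum]
      exact Finset.mem_univ i)

variable {G : SG c (Sp Pa (Px c))} {G' : SG (cO hp c (d + 1)) (So hp c (d + 1) Pa)} {B : SD D Q A} {X : FD A P (Sp Pa (Px c))}
  {W : WF A} {Zc : Finset (Pl K)} {k Mw : ℕ}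

/-- the own letter frame of a configuration with labels -/
theorem own_q (h : Hy hp G G' B X W Zc k Mw q) (T : ℝ) {b : Pl K → Option (Elb2 c (Sp Pa (Px c)) q d)}
    (l : Fin (d + 1) → Elb2 c (Sp Pa (Px c)) q d) {v : Fin (d + 1) → Pl K} (hv : v ∈ H35.CF.Fr Zc (PPc X W T) b (d + 1)) :
    Own (owl hp c (d + 1)) (Yq G' B X W T Zc (up b v l) v) (H93.OW.ixv v) := by
  rw [mem_fr] at hv
  refine own_rc h.hG' h.okW h.ze h.zc h.ez _ hv.2 (fun k => (hv.1 k).1) (fun k => (hv.1 k).2.1) fun k => ?_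
  unfold lf2
  rw [up_of b v l hv.2 k]
  exact Option.some_ne_none _

/-- the values of the family, in the form of H70/OW/Cfq -/
theorem heta_q [Finite P] (h : Hy hp G G' B X W Zc k Mw q)
    {x : (Px c → Du (Sp Pa (Px c)) q (d + 1)) × (P → Du (Sp Pa (Px c)) q (d + 1 + 1))}
    {Bf : ∀ i j : ℕ, Gr (Sp Pa (Px c)) i →+ Gr (Sp Pa (Px c)) j →+ ZMod q} {psi : So hp c (d + 1) Pa → ZMod q}
    (hq : Hq hp G X W q d x Bf psi) (T : ℝ) (τ₀ : Pl K → Sp Pa (Px c)) (e₀ : Pl K ⊕ Fin A.g → El2 (Sp Pa (Px c)) P q d)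
    {f : Pl K → Option (Elb2 c (Sp Pa (Px c)) q d)} {v : Fin (d + 1) → Pl K}
    (hO : Own (owl hp c (d + 1)) (Yq G' B X W T Zc f v) (H93.OW.ixv v))
    (hrz : (adx2 G B X W T Zc f).rz ((adx2 G B X W T Zc f).et2 (ef2 e₀ f)) = etX G B X W T Zc (lf2 f) x)
    {x0 : Pl K ⊕ Fin A.g → SP (So hp c (d + 1) Pa) (P × Ci p (d + 1))}
    (hm : ∀ j ∈ (Yq G' B X W T Zc f v).Jf, ∃ g ∈ Kj hp c Pa B v j, xq G' B X W T Zc τ₀ f v j = il g * x0 j) :
    ∀ j ∈ (Yq G' B X W T Zc f v).Jf, ∀ g ∈ Kj hp c Pa B v j,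
      (if (Yq G' B X W T Zc f v).pp j then ((owl hp c (d + 1)).eta Pa (Yq G' B X W T Zc f v) (H93.OW.ixv v)
          (H24.OW.ka ((owl hp c (d + 1)).ev Pa) psi (Yq G' B X W T Zc f v) (tq hp τ₀ f) x0 fun j => (ef2 e₀ f j).1) j :
            Du (So hp c (d + 1) Pa) q d × Du (So hp c (d + 1) Pa) q (d + 1)).1.ap (gk d g)
        else ((owl hp c (d + 1)).eta Pa (Yq G' B X W T Zc f v) (H93.OW.ixv v)
          (H24.OW.ka ((owl hp c (d + 1)).ev Pa) psi (Yq G' B X W T Zc f v) (tq hp τ₀ f) x0 fun j => (ef2 e₀ f j).1) j :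
            Du (So hp c (d + 1) Pa) q d × Du (So hp c (d + 1) Pa) q (d + 1)).2.ap (gk (d + 1) g)) =
      (if (Yq G' B X W T Zc f v).pp j then (ef2 e₀ f j).1.1.ap (gz d ((owl hp c (d + 1)).ev Pa g))
        else (ef2 e₀ f j).1.2.ap (gz (d + 1) ((owl hp c (d + 1)).ev Pa g))) +
        psi (H24.OW.Dj (Yq G' B X W T Zc f v) (tq hp τ₀ f) x0 j g) := by
  intro j hj g hg
  have hpp : (Yq G' B X W T Zc f v).pp j ↔ (adf G B X W T Zc (lf2 f)).pp j := by
    rw [← fe_gq (hp := hp) f v]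
    exact ado_pp j
  have hj' : j ∈ (adf G B X W T Zc (lf2 f)).Jf := by
    rw [← fe_gq (hp := hp) f v]
    rwa [← ado_jf (G' := G')]
  have key := adf_etg (p := p) h.hG h.hG' h.okF h.ze (fe_gq f v) (h.okY T (gq hp f v)) hO hq.qb (psio_pso hq.ps) h.d2
    (fun j => (ef2 e₀ f j).1) hrz (tq hp τ₀ f) (x0 := x0) (fun j hj => by
      obtain ⟨g, -, e⟩ := hm j hj
      exact ⟨g, e⟩) hj' hg
  rw [← if_congr hpp rfl rfl, ← if_congr hpp rfl rfl] at key
  exact key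

/-- the projection of the family -/
theorem pt_q {T : ℝ} {f : Pl K → Option (Elb2 c (Sp Pa (Px c)) q d)} {v : Fin (d + 1) → Pl K}
    (hO : Own (owl hp c (d + 1)) (Yq G' B X W T Zc f v) (H93.OW.ixv v)) (ka : Pl K ⊕ Fin A.g → So hp c (d + 1) Pa → ZMod q) :
    ∀ j ∈ (Yq G' B X W T Zc f v).Jf, ¬(Yq G' B X W T Zc f v).pp j → ∀ a,
      ((owl hp c (d + 1)).eta Pa (Yq G' B X W T Zc f v) (H93.OW.ixv v) ka j :
        Du (So hp c (d + 1) Pa) q d × Du (So hp c (d + 1) Pa) q (d + 1)).2.ap ((owl hp c (d + 1)).pj Pa Finset.univ (d + 1) a) =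
      ((owl hp c (d + 1)).eta Pa (Yq G' B X W T Zc f v) (H93.OW.ixv v) ka j :
        Du (So hp c (d + 1) Pa) q d × Du (So hp c (d + 1) Pa) q (d + 1)).2.ap a :=
  fun _ hj hp' a => OwL.eta_pr _ _ _ (hO.no hj hp') a

end H12.OW
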